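import Pool.Agent.H56.AF.BDefs

/-!
ROW Cnf (the CNF; about 200 lines).  PROOF.  `vid_lt`, `vid_inj`: arithmetic (`u.val * M + v.val < M * M`; division with remainder).  `bvar_lt`, `bvar_inj`: `j.val < q` (`ZMod.val_lt`).
`mem_vals`: every `j : ZMod q` is in `vals q` (`ZMod.natCast_zmod_val`).   `ASM_vars`: all literals are `bvar`s.
`ASM_size`: `oneC`: at most `1 + q + q * q * 3`; `cstC`: 2; `addC`: at most `q * q * q * 4`; the number of variables is `M * M + M * (M + 1)`; crude bounds.
`ASM_unsat`: suppose `a` satisfies all clauses (for every clause some literal is true).  For every `ν` there is `j` with `a (bvar ν j) = true` (first clause of `oneC`), let `X ν` be such a `j`; it is unique (the two-literal clauses; `j.val ≠ j'.val` for `j ≠ j'`).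
So `cstC`: `X ν = c`; `addC`: `X ν₁ + X ν₂ = X ν₃`.  Hence `X y_(v,t) = ∑_(u < t) X x_vu` (induction over `t`), `∑ v, X y_(v,M) = ∑ v u, X x_vu`.  By `X x_uv + X x_vu = X y_(u,0) = 0` and `X x_vv = 0` the double sum is 0
(split into `u < v`, `u = v`, `u > v`; `Finset.sum_comm`), but `∑ v, cM v = 1 ≠ 0` in `ZMod q` (`2 ≤ q`, `0 < M`).
-/

set_option autoImplicit false

namespace ACpB

open ACpFrege

variable {M q : ℕ}

theorem vid_lt (ν : Vr M) : vid ν < M * M + M * (M + 1) := by
  rcases ν with ⟨u, v⟩ | ⟨v, t⟩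
  · have h1 := u.2
    have h2 := v.2
    show u.val * M + v.val < _
    have h3 : (u.val + 1) * M ≤ M * M := Nat.mul_le_mul_right M h1
    nlinarith
  · show M * M + (v.val * (M + 1) + t.val) < _
    have h1 := v.2
    have h2 := t.2
    have h3 : (v.val + 1) * (M + 1) ≤ M * (M + 1) := Nat.mul_le_mul_right (M + 1) h1
    nlinarith

private theorem pair_inj {a b c d N : ℕ} (hb : b < N) (hd : d < N) (h : a * N + b = c * N + d) : a = c ∧ b = d := by
  rcases Nat.lt_trichotomy a c with h1 | h1 | h1
  · exfalso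
    have h2 : (a + 1) * N ≤ c * N := Nat.mul_le_mul_right N h1
    nlinarith
  · subst h1
    exact ⟨rfl, by omega⟩
  · exfalso
    have h2 : (c + 1) * N ≤ a * N := Nat.mul_le_mul_right N h1
    nlinarith

theorem vid_inj : Function.Injective (vid (M := M)) := by
  have hx : ∀ u v : Fin M, u.val * M + v.val < M * M := by
    intro u v
    have h1 := u.2
    have h2 := v.2
    have h3 : (u.val + 1) * M ≤ M * M := Nat.mul_le_mul_right M h1
    nlinarith
  rintro (⟨u, v⟩ | ⟨v, t⟩) (⟨u', v'⟩ | ⟨v', t'⟩) h
  · change u.val * M + v.val = u'.val * M + v'.val at h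
    obtain ⟨h1, h2⟩ := pair_inj v.2 v'.2 h
    rw [Fin.ext h1, Fin.ext h2]
  · change u.val * M + v.val = M * M + (v'.val * (M + 1) + t'.val) at h
    have := hx u v
    omega
  · change M * M + (v.val * (M + 1) + t.val) = u'.val * M + v'.val at h
    have := hx u' v'
    omega
  · change M * M + (v.val * (M + 1) + t.val) = M * M + (v'.val * (M + 1) + t'.val) at h
    obtain ⟨h1, h2⟩ := pair_inj t.2 t'.2 (Nat.add_left_cancel h)
    rw [Fin.ext h1, Fin.ext h2]

theorem bvar_lt [NeZero q] (ν : Vr M) (j : ZMod q) : bvar q ν j < nv M q := by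
  unfold bvar nv
  have h1 := vid_lt ν
  have h2 := ZMod.val_lt j
  have h3 : (vid ν + 1) * q ≤ (M * M + M * (M + 1)) * q := Nat.mul_le_mul_right q h1
  nlinarith

theorem bvar_inj [NeZero q] {ν ν' : Vr M} {j j' : ZMod q} (h : bvar q ν j = bvar q ν' j') : ν = ν' ∧ j = j' := by
  unfold bvar at h
  obtain ⟨h1, h2⟩ := pair_inj (ZMod.val_lt j) (ZMod.val_lt j') h
  exact ⟨vid_inj h1, ZMod.val_injective q h2⟩

private theorem vals_eq : vals q = (List.range q).map (fun i : ℕ => (i : ZMod q)) := by
  unfold vals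
  simp [List.map_eq_flatMap]

theorem mem_vals [NeZero q] (j : ZMod q) : j ∈ vals q := by
  rw [vals_eq, List.mem_map]
  exact ⟨j.val, List.mem_range.2 (ZMod.val_lt j), ZMod.natCast_zmod_val j⟩

theorem nodup_vals : (vals q).Nodup := by
  rw [vals_eq]
  refine List.Nodup.map_on ?_ List.nodup_range
  intro x hx y hy h
  rw [ZMod.natCast_eq_natCast_iff'] at h
  rwa [Nat.mod_eq_of_lt (List.mem_range.1 hx), Nat.mod_eq_of_lt (List.mem_range.1 hy)] at h

private theorem oneC_vars [NeZero q] (ν : Vr M) : ∀ C ∈ oneC q ν, ∀ l ∈ C, l.1 < nv M q := by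
  intro C hC l hl
  unfold oneC at hC
  rw [List.mem_cons] at hC
  rcases hC with rfl | hC
  · rw [List.mem_map] at hl
    obtain ⟨j, _, rfl⟩ := hl
    exact bvar_lt ν j
  · rw [List.mem_flatMap] at hC
    obtain ⟨j, _, hC⟩ := hC
    rw [List.mem_map] at hC
    obtain ⟨j', _, rfl⟩ := hC
    simp only [List.mem_cons, List.not_mem_nil, or_false] at hl
    rcases hl with rfl | rfl
    · exact bvar_lt ν j
    · exact bvar_lt ν j'

private theorem cstC_vars [NeZero q] (ν : Vr M) (c : ZMod q) : ∀ C ∈ cstC q ν c, ∀ l ∈ C, l.1 < nv M q := by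
  intro C hC l hl
  unfold cstC at hC
  rw [List.mem_singleton] at hC
  subst hC
  rw [List.mem_singleton] at hl
  subst hl
  exact bvar_lt ν c

private theorem addC_vars [NeZero q] (ν₁ ν₂ ν₃ : Vr M) : ∀ C ∈ addC q ν₁ ν₂ ν₃, ∀ l ∈ C, l.1 < nv M q := by
  intro C hC l hl
  unfold addC at hC
  rw [List.mem_flatMap] at hC
  obtain ⟨i, _, hC⟩ := hC
  rw [List.mem_flatMap] at hC
  obtain ⟨j, _, hC⟩ := hC
  rw [List.mem_map] at hC
  obtain ⟨k, _, rfl⟩ := hC
  simp only [List.mem_cons, List.not_mem_nil, or_false] at hl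
  rcases hl with rfl | rfl | rfl
  · exact bvar_lt ν₁ i
  · exact bvar_lt ν₂ j
  · exact bvar_lt ν₃ k

theorem ASM_vars [NeZero q] : ∀ C ∈ ASM M q, ∀ l ∈ C, l.1 < nv M q := by
  intro C hC l hl
  unfold ASM at hC
  simp only [List.mem_append, List.mem_flatMap] at hC
  rcases hC with ((⟨ν, _, hC⟩ | ⟨v, _, (hC | hC) | hC⟩) | ⟨u, _, v, _, hC⟩) | ⟨v, _, t, _, hC⟩
  · exact oneC_vars ν C hC l hl
  · exact cstC_vars _ _ C hC l hl
  · exact cstC_vars _ _ C hC l hl
  · exact cstC_vars _ _ C hC l hl
  · exact addC_vars _ _ _ C hC l hl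
  · exact addC_vars _ _ _ C hC l hl

private theorem size_append (F G : CNF) : CNF.size (F ++ G) = F.size + CNF.size G := by
  simp [CNF.size]

private theorem size_flatMap_le {α : Type} (l : List α) (f : α → CNF) (B : ℕ) (h : ∀ x ∈ l, (f x).size ≤ B) :
    CNF.size (l.flatMap f) ≤ l.length * B := by
  induction l with
  | nil => simp [CNF.size]
  | cons x l ih =>
    rw [List.flatMap_cons, size_append, List.length_cons]
    have h1 := h x (List.mem_cons_self)
    have h2 := ih fun y hy => h y (List.mem_cons_of_mem x hy)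
    calc (f x).size + CNF.size (l.flatMap f) ≤ B + l.length * B := Nat.add_le_add h1 h2
      _ = (l.length + 1) * B := by ring

private theorem size_map_le {α : Type} (l : List α) (f : α → List Lit) (B : ℕ) (h : ∀ x ∈ l, (f x).length ≤ B) :
    CNF.size (l.map f) ≤ l.length * (1 + B) := by
  induction l with
  | nil => simp [CNF.size]
  | cons x l ih =>
    have h1 := h x (List.mem_cons_self)
    have h2 := ih fun y hy => h y (List.mem_cons_of_mem x hy)
    have h3 : CNF.size ((x :: l).map f) = (1 + (f x).length) + CNF.size (l.map f) := by simp [CNF.size]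
    rw [h3, List.length_cons]
    calc (1 + (f x).length) + CNF.size (l.map f) ≤ (1 + B) + l.length * (1 + B) := by omega
      _ = (l.length + 1) * (1 + B) := by ring

private theorem length_vals : (vals q).length = q := by simp [vals_eq]

private theorem oneC_size (ν : Vr M) : CNF.size (oneC q ν) ≤ 1 + q + q * (q * 3) := by
  unfold oneC
  have h0 : ∀ (C : List Lit) (F : CNF), CNF.size (C :: F) = 1 + C.length + CNF.size F := by
    intro C F
    simp [CNF.size]
  rw [h0, List.length_map, length_vals]
  refine Nat.add_le_add_left ?_ _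
  refine (size_flatMap_le _ _ (q * 3) ?_).trans (by rw [length_vals])
  intro j _
  refine (size_map_le _ _ 2 (fun _ _ => by simp)).trans ?_
  have h1 : ((vals q).filter fun j' => j'.val ≠ j.val).length ≤ q := (List.length_filter_le _ _).trans (by rw [length_vals])
  exact Nat.mul_le_mul_right _ h1

private theorem cstC_size (ν : Vr M) (c : ZMod q) : CNF.size (cstC q ν c) = 2 := by simp [cstC, CNF.size]

private theorem addC_size (ν₁ ν₂ ν₃ : Vr M) : CNF.size (addC q ν₁ ν₂ ν₃) ≤ q * (q * (q * 4)) := by
  unfold addC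
  refine (size_flatMap_le _ _ (q * (q * 4)) ?_).trans (by rw [length_vals])
  intro i _
  refine (size_flatMap_le _ _ (q * 4) ?_).trans (by rw [length_vals])
  intro j _
  refine (size_map_le _ _ 3 (fun _ _ => by simp)).trans ?_
  have h1 : ((vals q).filter fun k => k.val ≠ (i + j).val).length ≤ q :=
    (List.length_filter_le _ _).trans (by rw [length_vals])
  exact Nat.mul_le_mul_right _ h1

private theorem length_allV : (allV M).length = M * M + M * (M + 1) := by
  simp [allV, List.length_flatMap]

theorem ASM_size : (ASM M q).size ≤ 50 * (q + 1) ^ 3 * (M + 1) ^ 2 := by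
  unfold ASM
  rw [size_append, size_append, size_append]
  have h1 : CNF.size ((allV M).flatMap (oneC q)) ≤ (M * M + M * (M + 1)) * (1 + q + q * (q * 3)) :=
    (size_flatMap_le _ _ _ (fun ν _ => oneC_size ν)).trans (by rw [length_allV])
  have h2 : CNF.size ((List.finRange M).flatMap fun v => cstC q (.inl (v, v)) 0 ++ cstC q (.inr (v, 0)) 0 ++
      cstC q (.inr (v, Fin.last M)) (cM q v)) ≤ M * 6 := by
    refine (size_flatMap_le _ _ 6 (fun v _ => ?_)).trans (by rw [List.length_finRange])
    rw [size_append, size_append, cstC_size, cstC_size, cstC_size]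
  have h3 : CNF.size ((List.finRange M).flatMap fun u => (List.finRange M).flatMap fun v =>
      addC q (.inl (u, v)) (.inl (v, u)) (.inr (u, 0))) ≤ M * (M * (q * (q * (q * 4)))) := by
    refine (size_flatMap_le _ _ (M * (q * (q * (q * 4)))) (fun u _ => ?_)).trans (by rw [List.length_finRange])
    exact (size_flatMap_le _ _ _ (fun v _ => addC_size _ _ _)).trans (by rw [List.length_finRange])
  have h4 : CNF.size ((List.finRange M).flatMap fun v => (List.finRange M).flatMap fun t =>
      addC q (.inr (v, t.castSucc)) (.inl (v, t)) (.inr (v, t.succ))) ≤ M * (M * (q * (q * (q * 4)))) := by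
    refine (size_flatMap_le _ _ (M * (q * (q * (q * 4)))) (fun u _ => ?_)).trans (by rw [List.length_finRange])
    exact (size_flatMap_le _ _ _ (fun v _ => addC_size _ _ _)).trans (by rw [List.length_finRange])
  refine (Nat.add_le_add (Nat.add_le_add (Nat.add_le_add h1 h2) h3) h4).trans ?_
  ring_nf
  nlinarith [Nat.zero_le (M * q), Nat.zero_le (M ^ 2 * q), Nat.zero_le (M ^ 2 * q ^ 2), Nat.zero_le (M ^ 2 * q ^ 3),
    Nat.zero_le (M * q ^ 2), Nat.zero_le (M * q ^ 3), Nat.zero_le M, Nat.zero_le q, Nat.zero_le (q ^ 2), Nat.zero_le (q ^ 3)]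

private theorem unsat_aux [NeZero q] (hq : 2 ≤ q) (hM : 1 ≤ M) (X : Vr M → ZMod q) (h1 : ∀ v : Fin M, X (.inl (v, v)) = 0)
    (h2 : ∀ v : Fin M, X (.inr (v, 0)) = 0) (h3 : ∀ v : Fin M, X (.inr (v, Fin.last M)) = cM q v)
    (h4 : ∀ u v : Fin M, X (.inl (u, v)) + X (.inl (v, u)) = X (.inr (u, 0)))
    (h5 : ∀ v t : Fin M, X (.inr (v, t.castSucc)) + X (.inl (v, t)) = X (.inr (v, t.succ))) : False := by
  have hy : ∀ v : Fin M, X (.inr (v, Fin.last M)) = ∑ u : Fin M, X (.inl (v, u)) := by
    intro v
    have h := Fin.sum_univ_eq_sum_range (fun _ => (0 : ZMod q)) M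
    have h6 : ∀ t : Fin (M + 1), X (.inr (v, t)) = ∑ u ∈ Finset.univ.filter (fun u : Fin M => u.val < t.val), X (.inl (v, u)) := by
      intro t
      induction t using Fin.induction with
      | zero => simp [h2]
      | succ t ih =>
        rw [← h5, ih]
        have h7 : Finset.univ.filter (fun u : Fin M => u.val < t.succ.val) =
            insert t (Finset.univ.filter (fun u : Fin M => u.val < t.castSucc.val)) := by
          ext u
          simp only [Finset.mem_filter, Finset.mem_univ, true_and, Finset.mem_insert, Fin.val_succ, Fin.val_castSucc]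
          rw [Fin.ext_iff]
          omega
        rw [h7, Finset.sum_insert (by simp)]
        ring
    rw [h6]
    refine Finset.sum_congr ?_ fun _ _ => rfl
    ext u
    simp
  have hsum : ∑ v : Fin M, ∑ u : Fin M, X (.inl (v, u)) = 1 := by
    have h6 : ∀ v : Fin M, ∑ u : Fin M, X (.inl (v, u)) = cM q v := fun v => by rw [← hy, h3]
    rw [Finset.sum_congr rfl fun v _ => h6 v]
    rw [Finset.sum_eq_single (⟨0, hM⟩ : Fin M)]
    · simp [cM]
    · intro v _ hv
      have : v.val ≠ 0 := fun h => hv (Fin.ext h)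
      simp [cM, this]
    · intro h
      exact absurd (Finset.mem_univ _) h
  -- the double sum is zero
  have hneg : ∀ u v : Fin M, X (.inl (u, v)) = - X (.inl (v, u)) := by
    intro u v
    have := h4 u v
    rw [h2] at this
    exact eq_neg_of_add_eq_zero_left this
  have hz : ∑ v : Fin M, ∑ u : Fin M, X (.inl (v, u)) = 0 := by
    have e1 : ∀ v : Fin M, ∑ u : Fin M, X (.inl (v, u)) =
        ∑ u : Fin M, (if u < v then X (.inl (v, u)) else 0) + ∑ u : Fin M, (if v < u then X (.inl (v, u)) else 0) := by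
      intro v
      rw [← Finset.sum_add_distrib]
      refine Finset.sum_congr rfl fun u _ => ?_
      rcases lt_trichotomy u v with h | h | h
      · rw [if_pos h, if_neg (lt_asymm h), add_zero]
      · subst h
        simp [h1]
      · rw [if_neg (lt_asymm h), if_pos h, zero_add]
    rw [Finset.sum_congr rfl fun v _ => e1 v, Finset.sum_add_distrib]
    rw [Finset.sum_comm (f := fun v u : Fin M => if v < u then X (.inl (v, u)) else 0), ← Finset.sum_add_distrib]
    refine Finset.sum_eq_zero fun v _ => ?_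
    rw [← Finset.sum_add_distrib]
    refine Finset.sum_eq_zero fun u _ => ?_
    by_cases h : u < v
    · rw [if_pos h, if_pos h, hneg v u, neg_add_cancel]
    · rw [if_neg h, if_neg h, add_zero]
  rw [hz] at hsum
  have : Fact (1 < q) := ⟨by omega⟩
  exact zero_ne_one hsum

theorem ASM_unsat (hq : 2 ≤ q) (hM : 1 ≤ M) : (ASM M q).Unsat := by
  have hne : NeZero q := ⟨by omega⟩
  intro a
  by_contra hcon
  push Not at hcon
  -- all clauses are satisfied
  have hone : ∀ ν : Vr M, ∃ j : ZMod q, a (bvar q ν j) = true := by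
    intro ν
    have hmem : ((vals q).map fun j => (bvar q ν j, true)) ∈ ASM M q := by
      unfold ASM
      simp only [List.mem_append, List.mem_flatMap]
      left; left; left
      refine ⟨ν, ?_, ?_⟩
      · unfold allV
        rw [List.mem_append]
        rcases ν with ⟨u, v⟩ | ⟨v, t⟩
        · left
          rw [List.mem_flatMap]
          exact ⟨u, List.mem_finRange u, List.mem_map.2 ⟨v, List.mem_finRange v, rfl⟩⟩
        · right
          rw [List.mem_flatMap]
          exact ⟨v, List.mem_finRange v, List.mem_map.2 ⟨t, List.mem_finRange t, rfl⟩⟩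
      · unfold oneC
        exact List.mem_cons_self
    obtain ⟨l, hl, hal⟩ := hcon _ hmem
    rw [List.mem_map] at hl
    obtain ⟨j, _, rfl⟩ := hl
    exact ⟨j, hal⟩
  choose X hX using hone
  have hallV : ∀ ν : Vr M, ν ∈ allV M := by
    intro ν
    unfold allV
    rw [List.mem_append]
    rcases ν with ⟨u, v⟩ | ⟨v, t⟩
    · left
      rw [List.mem_flatMap]
      exact ⟨u, List.mem_finRange u, List.mem_map.2 ⟨v, List.mem_finRange v, rfl⟩⟩
    · right
      rw [List.mem_flatMap]
      exact ⟨v, List.mem_finRange v, List.mem_map.2 ⟨t, List.mem_finRange t, rfl⟩⟩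
  have huniq : ∀ (ν : Vr M) (j : ZMod q), a (bvar q ν j) = true → j = X ν := by
    intro ν j hj
    by_contra hne'
    have hval : (X ν).val ≠ j.val := fun h => hne' (ZMod.val_injective q h).symm
    have hmem : [(bvar q ν j, false), (bvar q ν (X ν), false)] ∈ ASM M q := by
      unfold ASM
      simp only [List.mem_append, List.mem_flatMap]
      left; left; left
      refine ⟨ν, hallV ν, ?_⟩
      unfold oneC
      refine List.mem_cons_of_mem _ ?_
      rw [List.mem_flatMap]
      refine ⟨j, mem_vals j, ?_⟩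
      rw [List.mem_map]
      refine ⟨X ν, ?_, rfl⟩
      rw [List.mem_filter]
      exact ⟨mem_vals _, by simpa using hval⟩
    obtain ⟨l, hl, hal⟩ := hcon _ hmem
    simp only [List.mem_cons, List.not_mem_nil, or_false] at hl
    rcases hl with rfl | rfl
    · simp only at hal
      rw [hj] at hal
      exact Bool.noConfusion hal
    · simp only at hal
      rw [hX ν] at hal
      exact Bool.noConfusion hal
  have hcst : ∀ (ν : Vr M) (c : ZMod q), (∀ C ∈ cstC q ν c, C ∈ ASM M q) → X ν = c := by
    intro ν c h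
    obtain ⟨l, hl, hal⟩ := hcon _ (h _ (List.mem_singleton.2 rfl))
    rw [List.mem_singleton] at hl
    subst hl
    exact (huniq ν c hal).symm
  have hadd : ∀ ν₁ ν₂ ν₃ : Vr M, (∀ C ∈ addC q ν₁ ν₂ ν₃, C ∈ ASM M q) → X ν₁ + X ν₂ = X ν₃ := by
    intro ν₁ ν₂ ν₃ h
    by_contra hne'
    have hval : (X ν₃).val ≠ (X ν₁ + X ν₂).val := fun h => hne' (ZMod.val_injective q h).symm
    have hmem : [(bvar q ν₁ (X ν₁), false), (bvar q ν₂ (X ν₂), false), (bvar q ν₃ (X ν₃), false)] ∈ addC q ν₁ ν₂ ν₃ := by
      unfold addC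
      rw [List.mem_flatMap]
      refine ⟨X ν₁, mem_vals _, ?_⟩
      rw [List.mem_flatMap]
      refine ⟨X ν₂, mem_vals _, ?_⟩
      rw [List.mem_map]
      refine ⟨X ν₃, ?_, rfl⟩
      rw [List.mem_filter]
      exact ⟨mem_vals _, by simpa using hval⟩
    obtain ⟨l, hl, hal⟩ := hcon _ (h _ hmem)
    simp only [List.mem_cons, List.not_mem_nil, or_false] at hl
    rcases hl with rfl | rfl | rfl
    · simp only at hal
      rw [hX] at hal
      exact Bool.noConfusion hal
    · simp only at hal
      rw [hX] at hal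
      exact Bool.noConfusion hal
    · simp only at hal
      rw [hX] at hal
      exact Bool.noConfusion hal
  refine unsat_aux hq hM X (fun v => hcst _ _ ?_) (fun v => hcst _ _ ?_) (fun v => hcst _ _ ?_) (fun u v => hadd _ _ _ ?_)
    (fun v t => hadd _ _ _ ?_)
  · intro C hC
    unfold ASM
    simp only [List.mem_append, List.mem_flatMap]
    exact Or.inl (Or.inl (Or.inr ⟨v, List.mem_finRange v, Or.inl (Or.inl hC)⟩))
  · intro C hC
    unfold ASM
    simp only [List.mem_append, List.mem_flatMap]
    exact Or.inl (Or.inl (Or.inr ⟨v, List.mem_finRange v, Or.inl (Or.inr hC)⟩))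
  · intro C hC
    unfold ASM
    simp only [List.mem_append, List.mem_flatMap]
    exact Or.inl (Or.inl (Or.inr ⟨v, List.mem_finRange v, Or.inr hC⟩))
  · intro C hC
    unfold ASM
    simp only [List.mem_append, List.mem_flatMap]
    exact Or.inl (Or.inr ⟨u, List.mem_finRange u, v, List.mem_finRange v, hC⟩)
  · intro C hC
    unfold ASM
    simp only [List.mem_append, List.mem_flatMap]
    exact Or.inr ⟨v, List.mem_finRange v, t, List.mem_finRange t, hC⟩

end ACpB
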