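import Pool.Agent.H56.AF.Frame

/-!
ROW Count (dimensions; about 220 lines).  PROOF.  Let `D` = range of `dd` in the finite additive group `Mx M q`, `S j = {a | Cov A j a}`; `S j` is invariant under adding `dd g` (`Cov_dd`).  `PP a = a - dd (gg a)`, `PP (a + dd g) = PP a` (`PP_dd`), so
`PP (PP a) = PP a`; let `G = {a | PP a = a}`.   (1) `a ↦ (PP a, a - PP a)` is a bijection of `S j` with `(S j ∩ G) × D` (inverse `(b, d) ↦ b + d`): `|S j| = |S j ∩ G| * |D|`.
(2) `finrank (MM K A j) = |S j ∩ G|`: restriction `F ↦ (F b)_(b ∈ S j ∩ G)` is injective on `MM` (`F a = F (PP a)` by gauge invariance; `F (PP a) = 0` unless `PP a ∈ S j`) and onto (`F a := φ (PP a)` if `PP a ∈ S j`, else 0).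
So `finrank (MM K A j) * |D| = |S j|`.   (3) `S L ⊆ range anti` (`Wit.asy`, `Rch_anti`), so `finrank (MM K A L) * |D| ≤ |range anti|`; `S 0 = A` (`Cov_zero`).   (4) `anti` is additive (`anti_add`) with kernel `N`:
`|Mx M q| = |range anti| * |N|`, `#{c | anti c ∈ A} = |A| * |N|` (`A ⊆ range anti`; the fibres are translates of the kernel; `Finset.card_eq_sum_card_fiberwise`).  The hypothesis gives `|range anti| ≤ M^2 |A|`, so
`finrank (MM K A L) * |D| ≤ M^2 * finrank (MM K A 0) * |D|`, `|D| > 0`.   Positivity: the hypothesis gives a `c` with `anti c ∈ A`, so `A ≠ ∅`, `finrank (MM K A 0) * |D| = |A| > 0`.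
-/

set_option autoImplicit false

namespace ACpB

open ACpFrege

section CountAux

variable {M q : ℕ} [NeZero M] [NeZero q]

private theorem cnt_PP_eq (a : Mx M q) : PP a = a + dd (-gg a) := by
  rw [dd_neg, PP, sub_eq_add_neg]

omit [NeZero q] in
private theorem cnt_PP_add (a : Mx M q) : PP a + dd (gg a) = a := by
  rw [PP, sub_add_cancel]

private theorem cnt_PP_PP (a : Mx M q) : PP (PP a) = PP a := by
  rw [cnt_PP_eq a, PP_dd, ← cnt_PP_eq]

/-- The additive homomorphism `anti`. -/
private def cntH : Mx M q →+ Mx M q where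
  toFun := anti
  map_zero' := by
    funext u v
    simp [anti]
  map_add' := anti_add

omit [NeZero M] [NeZero q] in
private theorem cntH_apply (c : Mx M q) : cntH c = anti c := rfl

open Classical in
/-- The matrices reached from `A` by at most `j` moves. -/
private noncomputable def cntS (A : Set (Mx M q)) (j : ℕ) : Finset (Mx M q) :=
  Finset.univ.filter fun a => Cov A j a

open Classical in
/-- The normalised ones. -/
private noncomputable def cntG (A : Set (Mx M q)) (j : ℕ) : Finset (Mx M q) :=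
  (cntS A j).filter fun a => PP a = a

open Classical in
/-- The range of `dd`. -/
private noncomputable def cntD (M q : ℕ) [NeZero M] [NeZero q] : Finset (Mx M q) :=
  Finset.univ.image fun g : Fin M → ZMod q => dd g

omit [NeZero M] in
private theorem mem_cntS {A : Set (Mx M q)} {j : ℕ} {a : Mx M q} : a ∈ cntS A j ↔ Cov A j a := by
  classical
  simp only [cntS, Finset.mem_filter, Finset.mem_univ, true_and]

private theorem mem_cntG {A : Set (Mx M q)} {j : ℕ} {a : Mx M q} :
    a ∈ cntG A j ↔ a ∈ cntS A j ∧ PP a = a := by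
  classical
  simp only [cntG, Finset.mem_filter]

private theorem mem_cntD {d : Mx M q} : d ∈ cntD M q ↔ ∃ g : Fin M → ZMod q, dd g = d := by
  classical
  simp only [cntD, Finset.mem_image, Finset.mem_univ, true_and]

private theorem cntS_dd {R : ℕ} {A : Set (Mx M q)} {x : Mx M q → Fin M → ℂ} (hW : Wit R A x) {j : ℕ} (a : Mx M q)
    (g : Fin M → ZMod q) : a + dd g ∈ cntS A j ↔ a ∈ cntS A j := by
  rw [mem_cntS, mem_cntS, Cov_dd hW]

private theorem cntS_PP {R : ℕ} {A : Set (Mx M q)} {x : Mx M q → Fin M → ℂ} (hW : Wit R A x) {j : ℕ} (a : Mx M q) :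
    PP a ∈ cntS A j ↔ a ∈ cntS A j := by
  rw [cnt_PP_eq, cntS_dd hW]

private theorem cnt_card {R : ℕ} {A : Set (Mx M q)} {x : Mx M q → Fin M → ℂ} (hW : Wit R A x) (j : ℕ) :
    (cntS A j).card = (cntG A j).card * (cntD M q).card := by
  classical
  rw [← Finset.card_product]
  refine Finset.card_bij' (fun a _ => (PP a, dd (gg a))) (fun p _ => p.1 + p.2) ?_ ?_ ?_ ?_
  · intro a ha
    rw [Finset.mem_product]
    exact ⟨mem_cntG.2 ⟨(cntS_PP hW a).2 ha, cnt_PP_PP a⟩, mem_cntD.2 ⟨_, rfl⟩⟩
  · intro p hp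
    rw [Finset.mem_product] at hp
    obtain ⟨g, hg⟩ := mem_cntD.1 hp.2
    show p.1 + p.2 ∈ _
    rw [← hg, cntS_dd hW]
    exact (mem_cntG.1 hp.1).1
  · intro a _
    exact cnt_PP_add a
  · intro p hp
    rw [Finset.mem_product] at hp
    obtain ⟨g, hg⟩ := mem_cntD.1 hp.2
    have h1 : PP (p.1 + p.2) = p.1 := by
      rw [← hg, PP_dd]
      exact (mem_cntG.1 hp.1).2
    have h2 : dd (gg (p.1 + p.2)) = p.2 := by
      have h3 := cnt_PP_add (p.1 + p.2)
      rw [h1] at h3
      exact add_left_cancel h3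
    exact Prod.ext h1 h2

private theorem cnt_finrank (K : Type) [Field K] {R : ℕ} {A : Set (Mx M q)} {x : Mx M q → Fin M → ℂ} (hW : Wit R A x)
    (j : ℕ) : Module.finrank K (MM K A j) = (cntG A j).card := by
  classical
  let ρ : MM K A j →ₗ[K] ((cntG A j) → K) :=
    { toFun := fun F b => F.1 b.1
      map_add' := fun F G => rfl
      map_smul' := fun c F => rfl }
  have hPP : ∀ (F : MM K A j) (a : Mx M q), F.1 (PP a) = F.1 a := by
    intro F a
    rw [cnt_PP_eq]
    exact F.2.1 a _
  have hinj : Function.Injective ρ := by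
    rw [injective_iff_map_eq_zero]
    intro F hF
    apply Subtype.ext
    funext a
    show F.1 a = 0
    by_contra hne
    have h1 : F.1 (PP a) ≠ 0 := by rwa [hPP]
    have h2 := F.2.2 (PP a) h1
    have h3 : PP a ∈ cntG A j := mem_cntG.2 ⟨mem_cntS.2 h2, cnt_PP_PP a⟩
    have h4 : ρ F ⟨PP a, h3⟩ = 0 := by rw [hF]; rfl
    exact h1 h4
  have hsur : Function.Surjective ρ := by
    intro φ
    have hPPdd : ∀ (a : Mx M q) (g : Fin M → ZMod q), PP (a + dd g) = PP a := PP_dd
    let F : Mx M q → K := fun a => if h : PP a ∈ cntG A j then φ ⟨PP a, h⟩ else 0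
    have hFm : F ∈ MM K A j := by
      refine ⟨fun a g => ?_, fun a ha => ?_⟩
      · show (if h : PP (a + dd g) ∈ cntG A j then φ ⟨PP (a + dd g), h⟩ else 0) =
          (if h : PP a ∈ cntG A j then φ ⟨PP a, h⟩ else 0)
        rw [hPPdd]
      · have h1 : PP a ∈ cntG A j := by
          by_contra hn
          exact ha (dif_neg hn)
        exact mem_cntS.1 ((cntS_PP hW a).1 (mem_cntG.1 h1).1)
    refine ⟨⟨F, hFm⟩, ?_⟩
    funext b
    show (if h : PP b.1 ∈ cntG A j then φ ⟨PP b.1, h⟩ else 0) = φ b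
    have hb : PP b.1 = b.1 := (mem_cntG.1 b.2).2
    have hb' : PP b.1 ∈ cntG A j := by rw [hb]; exact b.2
    rw [dif_pos hb']
    exact congrArg φ (Subtype.ext hb)
  have he := (LinearEquiv.ofBijective ρ ⟨hinj, hsur⟩).finrank_eq
  rw [he, Module.finrank_fintype_fun_eq_card, Fintype.card_coe]

open Classical in
/-- The kernel of `anti`. -/
private noncomputable def cntN (M q : ℕ) [NeZero M] [NeZero q] : ℕ :=
  (Finset.univ.filter fun c : Mx M q => anti c = 0).card

private theorem cntN_pos : 0 < cntN M q := by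
  classical
  rw [cntN, Finset.card_pos]
  exact ⟨0, Finset.mem_filter.2 ⟨Finset.mem_univ _, (cntH (M := M) (q := q)).map_zero⟩⟩

open Classical in
private theorem cnt_fib (c₀ : Mx M q) : (Finset.univ.filter fun c : Mx M q => anti c = anti c₀).card = cntN M q := by
  rw [cntN]
  refine Finset.card_bij' (fun c _ => c - c₀) (fun c _ => c + c₀) ?_ ?_ ?_ ?_
  · intro c hc
    rw [Finset.mem_filter] at hc ⊢
    refine ⟨Finset.mem_univ _, ?_⟩
    have h := (cntH (M := M) (q := q)).map_sub c c₀
    rw [cntH_apply, cntH_apply, cntH_apply, hc.2, sub_self] at h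
    exact h
  · intro c hc
    rw [Finset.mem_filter] at hc ⊢
    refine ⟨Finset.mem_univ _, ?_⟩
    rw [anti_add, hc.2, zero_add]
  · intro c _
    exact sub_add_cancel c c₀
  · intro c _
    exact add_sub_cancel_right c c₀

open Classical in
private theorem cnt_fibre (P : Mx M q → Prop) :
    (Finset.univ.filter fun c : Mx M q => P (anti c)).card =
      (Finset.univ.filter fun a : Mx M q => a ∈ Set.range (anti (M := M) (q := q)) ∧ P a).card * cntN M q := by
  have hmap : ∀ c ∈ (Finset.univ.filter fun c : Mx M q => P (anti c)),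
      anti c ∈ (Finset.univ.filter fun a : Mx M q => a ∈ Set.range (anti (M := M) (q := q)) ∧ P a) := by
    intro c hc
    rw [Finset.mem_filter] at hc ⊢
    exact ⟨Finset.mem_univ _, ⟨c, rfl⟩, hc.2⟩
  rw [Finset.card_eq_sum_card_fiberwise hmap, ← smul_eq_mul, ← Finset.sum_const]
  refine Finset.sum_congr rfl fun a ha => ?_
  obtain ⟨⟨c₀, rfl⟩, hP⟩ := (Finset.mem_filter.1 ha).2
  rw [← cnt_fib c₀]
  congr 1
  ext c
  rw [Finset.mem_filter, Finset.mem_filter, Finset.mem_filter]
  constructor
  · rintro ⟨_, h⟩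
    exact ⟨Finset.mem_univ _, h⟩
  · rintro ⟨_, h⟩
    refine ⟨⟨Finset.mem_univ _, ?_⟩, h⟩
    rw [h]
    exact hP

end CountAux

open Classical in
theorem count {M q : ℕ} [NeZero M] [NeZero q] (K : Type) [Field K] {R L : ℕ} {A : Set (Mx M q)} {x : Mx M q → Fin M → ℂ}
    (hW : Wit R A x)
    (hc : Fintype.card (Fin M → Fin M → ZMod q) ≤
      M ^ 2 * (Finset.univ.filter fun c : Fin M → Fin M → ZMod q => anti c ∈ A).card) :
    0 < Module.finrank K (MM K A 0) ∧ Module.finrank K (MM K A L) ≤ M ^ 2 * Module.finrank K (MM K A 0) := by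
  have hrange : ∀ (j : ℕ) (a : Mx M q), Cov A j a → a ∈ Set.range (anti (M := M) (q := q)) := by
    rintro j a ⟨b, hb, hr⟩
    obtain ⟨c, hcb⟩ := hW.asy b hb
    exact Rch_anti hr ⟨c, hcb.symm⟩
  have hS0 : (Finset.univ.filter fun c : Fin M → Fin M → ZMod q => anti c ∈ A).card =
      (cntS A 0).card * cntN M q := by
    rw [cnt_fibre (fun a => a ∈ A)]
    congr 2
    ext a
    rw [Finset.mem_filter, mem_cntS, Cov_zero]
    constructor
    · rintro ⟨_, _, h⟩
      exact h
    · intro h
      exact ⟨Finset.mem_univ _, hrange 0 a (Cov_zero.2 h), h⟩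
  obtain ⟨P, hP⟩ : ∃ P : Mx M q → Prop, ∀ a, P a := ⟨fun _ => True, fun _ => trivial⟩
  have hall : Fintype.card (Fin M → Fin M → ZMod q) =
      (Finset.univ.filter fun a : Mx M q => a ∈ Set.range (anti (M := M) (q := q)) ∧ P a).card * cntN M q := by
    rw [← cnt_fibre P, Finset.filter_true_of_mem fun c _ => hP _, Finset.card_univ]
  have hSL : (cntS A L).card ≤
      (Finset.univ.filter fun a : Mx M q => a ∈ Set.range (anti (M := M) (q := q)) ∧ P a).card := by
    refine Finset.card_le_card fun a ha => ?_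
    rw [Finset.mem_filter]
    exact ⟨Finset.mem_univ _, hrange L a (mem_cntS.1 ha), hP a⟩
  have hN := cntN_pos (M := M) (q := q)
  have hpos : 0 < Fintype.card (Fin M → Fin M → ZMod q) := Fintype.card_pos
  have h0 := cnt_card hW 0
  have hL := cnt_card hW L
  have hf0 := cnt_finrank K hW 0
  have hfL := cnt_finrank K hW L
  rw [hf0, hfL]
  rw [hS0] at hc
  have hc' : (Finset.univ.filter fun a : Mx M q => a ∈ Set.range (anti (M := M) (q := q)) ∧ P a).card ≤
      M ^ 2 * (cntS A 0).card := by
    have h1 : (Finset.univ.filter fun a : Mx M q => a ∈ Set.range (anti (M := M) (q := q)) ∧ P a).card * cntN M q ≤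
        (M ^ 2 * (cntS A 0).card) * cntN M q := by
      rw [← hall, mul_assoc]
      exact hc
    exact Nat.le_of_mul_le_mul_right h1 hN
  have hS0pos : 0 < (cntS A 0).card := by
    rcases Nat.eq_zero_or_pos (cntS A 0).card with h | h
    · rw [h, zero_mul, mul_zero] at hc
      omega
    · exact h
  have hDpos : 0 < (cntD M q).card := by
    rcases Nat.eq_zero_or_pos (cntD M q).card with h | h
    · rw [h, mul_zero] at h0
      omega
    · exact h
  refine ⟨?_, ?_⟩
  · rcases Nat.eq_zero_or_pos (cntG A 0).card with h | h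
    · rw [h, zero_mul] at h0
      omega
    · exact h
  · have h2 : (cntG A L).card * (cntD M q).card ≤
        (M ^ 2 * (cntG A 0).card) * (cntD M q).card := by
      rw [← hL, mul_assoc, ← h0]
      exact hSL.trans hc'
    exact Nat.le_of_mul_le_mul_right h2 hDpos

end ACpB
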