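import Pool.Agent.H56.AF.Rel
import Pool.Agent.H56.AF.Cnf
import Pool.Agent.H56.AF.Count

/-!
ROW BMain (Part B; about 250 lines).  PROOF.  `K = AlgebraicClosure (ZMod p)`, `η` a primitive `q`-th root of unity (`(q : K) ≠ 0` because `q` is coprime to `p`; `HasEnoughRootsOfUnity.exists_primitiveRoot` / `IsSepClosed`), `E = Mx M q → K`.
`s.X i = XX η A L x ν j` if `i = bvar q ν j` for some `ν, j` (unique by `bvar_inj`), else `0`; `s.M j = MM K A j`; `s.L = L`.   `up`: `MM_up`; `map`: `XX_map`; `idem`, `comm`: `XX_idem`, `XX_comm` (trivial if an operator is 0).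
Clauses (`C.foldr s.lit m = 0` for `m ∈ s.M j`, `j + C.length ≤ L`; `s.lit (bvar ν i, true) m = m - XX ν i m`, `s.lit (bvar ν i, false) m = XX ν i m`): membership in `ASM M q` by `List.mem_append`, `List.mem_flatMap`, `List.mem_map`.
`oneC`, first clause: by induction over a list `l` of pairwise different values with `j + l.length ≤ L`: `foldr = m - (l.map fun i => XX ν i m).sum` (for `i :: l`: apply `1 - XX i` to `m - ∑_(i' ∈ l) XX i' m`:
`XX i (XX i' m) = 0` by `XX_orth`, for which `l ≠ []` gives `j + 2 ≤ L`), and for `l = vals q` the sum is `m` (`XX_sum`, `mem_vals`, `nodup_vals`).  Two-literal clauses: `XX_orth`.  `cstC`: `m - XX ν c m = 0`: `XX_zero` (`mv_diag`, `mv_y0`),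
`XX_star`.  `addC`: `XX_add` with `mv_sym`, `mv_step`; `k.val ≠ (i + j).val` gives `i + j ≠ k`.
-/

set_option autoImplicit false

namespace ACpB

open ACpFrege

private theorem BMain_fold {K E ι : Type} [Field K] [AddCommGroup E] [Module K E] (P : ι → E →ₗ[K] E) (m : E) :
    ∀ l : List ι, l.Nodup → (∀ i ∈ l, ∀ i' ∈ l, i ≠ i' → P i (P i' m) = 0) →
      l.foldr (fun i y => y - P i y) m = m - (l.map fun i => P i m).sum := by
  intro l
  induction l with
  | nil => intro _ _; simp
  | cons a l ih =>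
    intro hnd ho
    have hnd' := List.nodup_cons.mp hnd
    have ih' := ih hnd'.2 (fun i hi i' hi' h => ho i (List.mem_cons_of_mem _ hi) i' (List.mem_cons_of_mem _ hi') h)
    have h0 : P a (l.map fun i => P i m).sum = 0 := by
      rw [map_list_sum, List.map_map]
      apply List.sum_eq_zero
      intro x hx
      obtain ⟨i', hi', rfl⟩ := List.mem_map.mp hx
      exact ho a List.mem_cons_self i' (List.mem_cons_of_mem _ hi') (fun h => hnd'.1 (h ▸ hi'))
    rw [List.foldr_cons, ih', map_sub, h0, List.map_cons, List.sum_cons]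
    abel

private theorem BMain_root (p : ℕ) [Fact p.Prime] {q : ℕ} [NeZero q] (hpq : q.Coprime p) :
    ((q : AlgebraicClosure (ZMod p)) ≠ 0) ∧ ∃ η : AlgebraicClosure (ZMod p), IsPrimitiveRoot η q := by
  have h1 : (q : AlgebraicClosure (ZMod p)) ≠ 0 := by
    intro h
    rw [CharP.cast_eq_zero_iff (AlgebraicClosure (ZMod p)) p q] at h
    have hp : p.Prime := Fact.out
    have h2 := Nat.dvd_gcd h (dvd_refl p)
    rw [hpq] at h2
    exact hp.one_lt.ne' (Nat.dvd_one.mp h2)
  refine ⟨h1, ?_⟩
  have : NeZero (q : AlgebraicClosure (ZMod p)) := ⟨h1⟩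
  exact HasEnoughRootsOfUnity.exists_primitiveRoot (AlgebraicClosure (ZMod p)) q

open Classical in
/-- The operator of the Boolean variable `i`. -/
private noncomputable def BMain_X {K : Type} [Field K] {M q : ℕ} [NeZero M] [NeZero q] (η : K) (A : Set (Mx M q)) (L : ℕ)
    (x : Mx M q → Fin M → ℂ) (i : ℕ) : (Mx M q → K) →ₗ[K] (Mx M q → K) :=
  if h : ∃ z : Vr M × ZMod q, bvar q z.1 z.2 = i then XX η A L x h.choose.1 h.choose.2 else 0

private theorem BMain_Xb {K : Type} [Field K] {M q : ℕ} [NeZero M] [NeZero q] (η : K) (A : Set (Mx M q)) (L : ℕ)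
    (x : Mx M q → Fin M → ℂ) (ν : Vr M) (j : ZMod q) : BMain_X η A L x (bvar q ν j) = XX η A L x ν j := by
  unfold BMain_X
  have h : ∃ z : Vr M × ZMod q, bvar q z.1 z.2 = bvar q ν j := ⟨(ν, j), rfl⟩
  rw [dif_pos h]
  obtain ⟨h1, h2⟩ := bvar_inj h.choose_spec
  rw [h1, h2]

private theorem BMain_cases {K : Type} [Field K] {M q : ℕ} [NeZero M] [NeZero q] (η : K) (A : Set (Mx M q)) (L : ℕ)
    (x : Mx M q → Fin M → ℂ) (i : ℕ) : BMain_X (q := q) η A L x i = 0 ∨ ∃ ν j, BMain_X (q := q) η A L x i = XX η A L x ν j := by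
  unfold BMain_X
  split_ifs with h
  · exact Or.inr ⟨_, _, rfl⟩
  · exact Or.inl rfl

open Classical in
private theorem BMain_gen {p : ℕ} {q : ℕ} [NeZero q] (hq : 3 ≤ q) {M R L : ℕ} [NeZero M] {K : Type} [Field K] [CharP K p]
    {η : K} (hη : IsPrimitiveRoot η q) (hqK : (q : K) ≠ 0) (hR : 2 * L + 3 ≤ R) {A : Set (Mx M q)} {x : Mx M q → Fin M → ℂ}
    (hW : Wit R A x) (hc : Fintype.card (Fin M → Fin M → ZMod q) ≤
      M ^ 2 * (Finset.univ.filter fun c : Fin M → Fin M → ZMod q => anti c ∈ A).card) :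
    HasSlow p (nv M q) (ASM M q) L (M ^ 2) := by
  have hcount := count (L := L) K hW hc
  let s : Slow K (Mx M q → K) (nv M q) :=
    { X := fun i => BMain_X η A L x i.val
      M := fun j => MM K A j
      L := L
      up := fun j _ => MM_up A (Nat.le_succ j)
      map := by
        intro i j hj m hm
        rcases BMain_cases (q := q) η A L x i.val with h | ⟨ν, k, h⟩
        · rw [h]; exact Submodule.zero_mem _
        · rw [h]; exact XX_map η A L x ν k hm
      idem := by
        intro i j hj m hm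
        rcases BMain_cases (q := q) η A L x i.val with h | ⟨ν, k, h⟩
        · rw [h]; simp
        · rw [h]; exact XX_idem hq hη hqK hR hW hj ν k hm
      comm := by
        intro i i' j hj m hm
        rcases BMain_cases (q := q) η A L x i.val with h | ⟨ν, k, h⟩
        · rw [h]; simp
        · rcases BMain_cases (q := q) η A L x i'.val with h' | ⟨ν', k', h'⟩
          · rw [h']; simp
          · rw [h, h']; exact XX_comm hq hη hR hW hj ν ν' k k' hm }
  have hlt : ∀ (ν : Vr M) (k : ZMod q) (m : Mx M q → K), s.lit (bvar q ν k, true) m = m - XX η A L x ν k m := by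
    intro ν k m
    unfold Slow.lit
    rw [dif_pos (bvar_lt ν k), if_pos rfl]
    show m - BMain_X η A L x (bvar q ν k) m = _
    rw [BMain_Xb]
  have hlf : ∀ (ν : Vr M) (k : ZMod q) (m : Mx M q → K), s.lit (bvar q ν k, false) m = XX η A L x ν k m := by
    intro ν k m
    unfold Slow.lit
    rw [dif_pos (bvar_lt ν k), if_neg (by simp)]
    show BMain_X η A L x (bvar q ν k) m = _
    rw [BMain_Xb]
  have hq3 : 3 ≤ q := by omega
  refine ⟨K, inferInstance, inferInstance, Mx M q → K, inferInstance, inferInstance, inferInstance, s, rfl, hcount.1, hcount.2, ?_⟩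
  -- the clauses
  have hadd : ∀ (ν₁ ν₂ ν₃ : Vr M), mv q ν₁ + mv q ν₂ = mv q ν₃ → ∀ C ∈ addC q ν₁ ν₂ ν₃, ∀ j, j + C.length ≤ L →
      ∀ m ∈ MM K A j, C.foldr s.lit m = 0 := by
    intro ν₁ ν₂ ν₃ h1 C hC j hj m hm
    unfold addC at hC
    simp only [List.mem_flatMap, List.mem_map, List.mem_filter] at hC
    obtain ⟨i, _, i', _, k, ⟨_, hk⟩, rfl⟩ := hC
    simp only [List.foldr_cons, List.foldr_nil, hlf]
    have hk' : i + i' ≠ k := by
      intro h
      have := of_decide_eq_true hk
      exact this (by rw [h])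
    exact XX_add hq hη hqK hR hW (by simpa using hj) h1 hk' hm
  intro C hC j hj m hm
  unfold ASM at hC
  simp only [List.mem_append] at hC
  rcases hC with ((hC | hC) | hC) | hC
  · -- exactly one value
    obtain ⟨ν, _, hC⟩ := List.mem_flatMap.mp hC
    unfold oneC at hC
    rcases List.mem_cons.mp hC with rfl | hC
    · rw [List.foldr_map]
      have e1 : (fun (i : ZMod q) (y : Mx M q → K) => s.lit (bvar q ν i, true) y) = fun i y => y - XX η A L x ν i y := by
        funext i y
        rw [hlt]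
      have hlen : ((vals q).map fun j => (bvar q ν j, true)).length = q := by
        simp [vals]
      rw [hlen] at hj
      rw [e1, BMain_fold (fun i => XX η A L x ν i) m (vals q) nodup_vals (fun i _ i' _ hne =>
        XX_orth hq hη hqK hR hW (by omega : j + 2 ≤ L) ν hne hm)]
      have e2 : ((vals q).map fun i => XX η A L x ν i m).sum = ∑ i : ZMod q, XX η A L x ν i m := by
        rw [← List.sum_toFinset _ nodup_vals]
        congr 1
        ext i
        simp [mem_vals i]
      rw [e2, XX_sum hq hη hqK hR hW (by omega : j + 1 ≤ L) ν hm, sub_self]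
    · simp only [List.mem_flatMap, List.mem_map, List.mem_filter] at hC
      obtain ⟨i, _, i', ⟨_, hk⟩, rfl⟩ := hC
      simp only [List.foldr_cons, List.foldr_nil, hlf]
      have hne : i ≠ i' := by
        intro h
        have := of_decide_eq_true hk
        exact this (by rw [h])
      exact XX_orth hq hη hqK hR hW (by simpa using hj) ν hne hm
  · obtain ⟨v, _, hC⟩ := List.mem_flatMap.mp hC
    simp only [List.mem_append, cstC, List.mem_singleton] at hC
    rcases hC with (rfl | rfl) | rfl
    · simp only [List.foldr_cons, List.foldr_nil, hlt]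
      rw [XX_zero hq hη hqK hR hW (by simpa using hj) (mv_diag v) hm, sub_self]
    · simp only [List.foldr_cons, List.foldr_nil, hlt]
      rw [XX_zero hq hη hqK hR hW (by simpa using hj) (mv_y0 v) hm, sub_self]
    · simp only [List.foldr_cons, List.foldr_nil, hlt]
      rw [XX_star hq hη hqK hW (by omega : j ≤ L) v hm, sub_self]
  · obtain ⟨u, _, hC⟩ := List.mem_flatMap.mp hC
    obtain ⟨v, _, hC⟩ := List.mem_flatMap.mp hC
    exact hadd _ _ _ (mv_sym u v) C hC j hj m hm
  · obtain ⟨v, _, hC⟩ := List.mem_flatMap.mp hC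
    obtain ⟨t, _, hC⟩ := List.mem_flatMap.mp hC
    exact hadd _ _ _ (mv_step v t) C hC j hj m hm

open Classical in
/-- Part B. -/
theorem partB (p : ℕ) [Fact p.Prime] {q : ℕ} [NeZero q] (hq : 3 ≤ q) (hpq : q.Coprime p) {M : ℕ} (hM : 1 ≤ M)
    {R L : ℕ} (hR : 2 * L + 3 ≤ R) {A : Set (Mx M q)} {x : Mx M q → Fin M → ℂ} (hW : Wit R A x)
    (hc : Fintype.card (Fin M → Fin M → ZMod q) ≤
      M ^ 2 * (Finset.univ.filter fun c : Fin M → Fin M → ZMod q => anti c ∈ A).card) :
    HasSlow p (nv M q) (ASM M q) L (M ^ 2) := by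
  have : NeZero M := ⟨by omega⟩
  obtain ⟨hqK, η, hη⟩ := BMain_root p hpq
  exact BMain_gen hq hη hqK hR hW hc

end ACpB
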