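import Pool.Agent.H65.AF.WDefs

/-!
helper56 (project MP_28250c_AF, Part B): the CNF `ASM M q`, the gauge group, the frame (witness form, `Wit` of H65/AF/WDefs.lean), the transport `tt`,
the operators `XX` and the filtration `MM`.

`Mx M q` = exponent matrices `a : Fin M → Fin M → ZMod q`.  Gauge: `dd g` has the entries `g u - g v`; `DD q g x` multiplies the entry `u` of `x` by `om q (g u)`.
-/

set_option autoImplicit false

namespace ACpB

open ACpFrege

/-! ### The CNF -/

/-- The number of a `Z/q`-valued variable. -/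
def vid {M : ℕ} : Vr M → ℕ
  | .inl (u, v) => u.val * M + v.val
  | .inr (v, t) => M * M + (v.val * (M + 1) + t.val)

/-- The Boolean variable for [`ν` has the value `j`]. -/
def bvar (q : ℕ) {M : ℕ} (ν : Vr M) (j : ZMod q) : ℕ := vid ν * q + j.val

/-- The number of Boolean variables. -/
def nv (M q : ℕ) : ℕ := (M * M + M * (M + 1)) * q

/-- The list of the elements of `Z/q`. -/
def vals (q : ℕ) : List (ZMod q) := (List.range q).map fun i => (i : ZMod q)

/-- `ν` has exactly one value. -/
def oneC (q : ℕ) {M : ℕ} (ν : Vr M) : CNF :=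
  ((vals q).map fun j => (bvar q ν j, true)) ::
    (vals q).flatMap fun j => ((vals q).filter fun j' => j'.val ≠ j.val).map fun j' => [(bvar q ν j, false), (bvar q ν j', false)]

/-- `ν` has the value `c`. -/
def cstC (q : ℕ) {M : ℕ} (ν : Vr M) (c : ZMod q) : CNF := [[(bvar q ν c, true)]]

/-- `ν₁ + ν₂ = ν₃`. -/
def addC (q : ℕ) {M : ℕ} (ν₁ ν₂ ν₃ : Vr M) : CNF :=
  (vals q).flatMap fun i => (vals q).flatMap fun j => ((vals q).filter fun k => k.val ≠ (i + j).val).map fun k =>
    [(bvar q ν₁ i, false), (bvar q ν₂ j, false), (bvar q ν₃ k, false)]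

/-- The value of `y_(v,M)`. -/
def cM (q : ℕ) {M : ℕ} (v : Fin M) : ZMod q := if v.val = 0 then 1 else 0

/-- All variables. -/
def allV (M : ℕ) : List (Vr M) :=
  ((List.finRange M).flatMap fun u => (List.finRange M).map fun v => .inl (u, v)) ++
    (List.finRange M).flatMap fun v => (List.finRange (M + 1)).map fun t => .inr (v, t)

/-- The CNF: `x_vv = 0`, `y_(v,0) = 0`, `y_(v,M) = 1` for `v = 0` and `0` otherwise, `x_uv + x_vu = y_(u,0)`,
`y_(v,t) + x_vt = y_(v,t+1)`. -/
def ASM (M q : ℕ) : CNF :=
  (allV M).flatMap (oneC q) ++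
  ((List.finRange M).flatMap fun v => cstC q (.inl (v, v)) 0 ++ cstC q (.inr (v, 0)) 0 ++ cstC q (.inr (v, Fin.last M)) (cM q v)) ++
  ((List.finRange M).flatMap fun u => (List.finRange M).flatMap fun v => addC q (.inl (u, v)) (.inl (v, u)) (.inr (u, 0))) ++
  ((List.finRange M).flatMap fun v => (List.finRange M).flatMap fun t =>
    addC q (.inr (v, t.castSucc)) (.inl (v, t)) (.inr (v, t.succ)))

/-! ### Gauge group and frame -/

/-- Exponent matrices. -/
abbrev Mx (M q : ℕ) := Fin M → Fin M → ZMod q

/-- The row of a variable: the move of `ν` is supported in the row and the column `rw ν`. -/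
def row {M : ℕ} : Vr M → Fin M
  | .inl (u, _) => u
  | .inr (v, _) => v

/-- The gauge change. -/
def dd {M q : ℕ} (g : Fin M → ZMod q) : Mx M q := fun u v => g u - g v

/-- The gauge action on vectors. -/
noncomputable def DD {M : ℕ} (q : ℕ) (g : Fin M → ZMod q) (x : Fin M → ℂ) : Fin M → ℂ := fun u => om q (g u) * x u

/-- The gauge which makes the row 0 of `a` zero. -/
def gg {M q : ℕ} [NeZero M] (a : Mx M q) : Fin M → ZMod q := fun v => -a 0 v

/-- The normalised matrix. -/
def PP {M q : ℕ} [NeZero M] (a : Mx M q) : Mx M q := a - dd (gg a)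

/-- `b` is reached from `a` by at most `r` moves. -/
def Rch {M q : ℕ} (r : ℕ) (a b : Mx M q) : Prop := ∃ l : List (Vr M × ZMod q), l.length ≤ r ∧ b = a + tot l

/-- `b` is reached from some matrix in `A` by at most `r` moves. -/
def Cov {M q : ℕ} (A : Set (Mx M q)) (r : ℕ) (b : Mx M q) : Prop := ∃ a ∈ A, Rch r a b

open Classical in
/-- A witness for `c`. -/
noncomputable def wit {M q : ℕ} (A : Set (Mx M q)) (L : ℕ) (c : Mx M q) : Mx M q := if h : Cov A L c then h.choose else 0

/-- The frame: the vector of the witness of the normalised matrix, transported by the gauge. -/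
noncomputable def x0 {M q : ℕ} [NeZero M] (A : Set (Mx M q)) (L : ℕ) (x : Mx M q → Fin M → ℂ) (a : Mx M q) : Fin M → ℂ :=
  DD q (gg a) (x (wit A L (PP a)))

open Classical in
/-- The transport of the frame from `a + m` to `a`. -/
noncomputable def tt {M q : ℕ} [NeZero M] (A : Set (Mx M q)) (L : ℕ) (x : Mx M q → Fin M → ℂ) (m a : Mx M q) : ZMod q :=
  if h : ∃ s : ZMod q, nsq (om q s • x0 A L x (a + m) - x0 A L x a) ≤ 1 / (q : ℝ) ^ 2 then h.choose else 0

/-! ### Operators -/

variable {K : Type} [Field K]

/-- The character of `Z/q` given by the root of unity `η`. -/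
def chi {q : ℕ} (η : K) (s : ZMod q) : K := η ^ s.val

/-- The projection to [`ν` has the value `j`]. -/
noncomputable def XX {M q : ℕ} [NeZero M] [NeZero q] (η : K) (A : Set (Mx M q)) (L : ℕ) (x : Mx M q → Fin M → ℂ) (ν : Vr M)
    (j : ZMod q) : (Mx M q → K) →ₗ[K] (Mx M q → K) where
  toFun F := fun a => (q : K)⁻¹ * ∑ k : ZMod q, chi η (-(j * k) + tt A L x (k • mv q ν) a) * F (a + k • mv q ν)
  map_add' := by
    intro F G
    funext a
    simp only [Pi.add_apply, mul_add, Finset.sum_add_distrib]
  map_smul' := by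
    intro c F
    funext a
    simp only [Pi.smul_apply, smul_eq_mul, RingHom.id_apply]
    rw [Finset.mul_sum, Finset.mul_sum, Finset.mul_sum]
    refine Finset.sum_congr rfl fun k _ => ?_
    ring

/-- The untwisted operator: average over the translations by multiples of `m`. -/
noncomputable def YY {M q : ℕ} [NeZero q] (η : K) (m : Mx M q) (j : ZMod q) (G : Mx M q → K) : Mx M q → K :=
  fun b => (q : K)⁻¹ * ∑ k : ZMod q, chi η (-(j * k)) * G (b + k • m)

/-- The gauge invariant functions which are supported on the matrices reached from `A` by at most `j` moves. -/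
def MM {M q : ℕ} (K : Type) [Field K] (A : Set (Mx M q)) (j : ℕ) : Submodule K (Mx M q → K) where
  carrier := {F | (∀ a g, F (a + dd g) = F a) ∧ ∀ a, F a ≠ 0 → Cov A j a}
  add_mem' := by
    intro F G hF hG
    refine ⟨fun a g => ?_, fun a ha => ?_⟩
    · show F (a + dd g) + G (a + dd g) = F a + G a
      rw [hF.1, hG.1]
    · by_cases h : F a = 0
      · refine hG.2 a fun h' => ha ?_
        show F a + G a = 0
        rw [h, h', add_zero]
      · exact hF.2 a h
  zero_mem' := ⟨fun _ _ => rfl, fun _ ha => absurd rfl ha⟩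
  smul_mem' := by
    intro c F hF
    refine ⟨fun a g => ?_, fun a ha => ?_⟩
    · show c * F (a + dd g) = c * F a
      rw [hF.1]
    · refine hF.2 a fun h' => ha ?_
      show c * F a = 0
      rw [h', mul_zero]

end ACpB
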