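import Pool.Agent.H56.AF.BDefs

/-!
ROW Alg (the untwisted operators; about 150 lines).  PROOF.  `chi η s = η ^ s.val`.  `chi_add`: `ZMod.val_add` and `η ^ q = 1`.  `chi_sum`: for `s = 0` the sum is `q`; for `s ≠ 0` let `c = chi s ≠ 1` (`IsPrimitiveRoot.pow_eq_one_iff_dvd`,
`s.val < q`, `s.val ≠ 0`); `T = ∑ k, chi (s * k)`; shifting `k` by 1: `T = c * T`, so `T = 0`.
`YY_idem`, `YY_orth`: `YY m j (YY m j' G) b = q⁻² ∑ k ∑ k', chi (-(j k)) chi (-(j' k')) G (b + (k + k') • m)`; with `l = k + k'`: `= q⁻² ∑ l (∑ k chi ((j' - j) k)) chi (-(j' l)) G (b + l • m)` and `chi_sum`.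
`YY_comm`: interchange of sums.  `YY_sum`: `∑ j chi (-(j k)) = q [k = 0]`.  `YY_add`: `q⁻³ ∑ k₁ k₂ k₃ chi (-(i k₁) - (j k₂) - (l k₃)) G (b + (k₁ + k₃) • m₁ + (k₂ + k₃) • m₂)`; substitute `k₁ ↦ k₁ - k₃`, `k₂ ↦ k₂ - k₃`:
the inner sum over `k₃` is `∑ chi ((i + j - l) k₃) = 0`.   `YY_zero`: `m = 0`: `q⁻¹ (∑ k chi (-(j k))) G b`.
-/

set_option autoImplicit false

namespace ACpB

open ACpFrege

variable {M q : ℕ} [NeZero q] {K : Type} [Field K]

theorem chi_add {η : K} (hη : η ^ q = 1) (s t : ZMod q) : chi η (s + t) = chi η s * chi η t := by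
  unfold chi
  rw [ZMod.val_add, ← pow_add]
  exact (pow_eq_pow_mod _ hη).symm

theorem chi_zero (η : K) : chi η (0 : ZMod q) = 1 := by
  unfold chi
  rw [ZMod.val_zero, pow_zero]

theorem chi_ne {η : K} (hη : η ^ q = 1) (s : ZMod q) : chi η s ≠ 0 := by
  unfold chi
  refine pow_ne_zero _ fun h => ?_
  rw [h, zero_pow (NeZero.ne q)] at hη
  exact zero_ne_one hη

theorem chi_sum {η : K} (hη : IsPrimitiveRoot η q) (s : ZMod q) :
    ∑ k : ZMod q, chi η (s * k) = if s = 0 then (q : K) else 0 := by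
  split_ifs with h
  · subst h
    simp only [zero_mul, chi_zero]
    rw [Finset.sum_const, Finset.card_univ, ZMod.card, nsmul_eq_mul, mul_one]
  · have h1 : chi η s ≠ 1 := by
      intro h2
      unfold chi at h2
      rw [hη.pow_eq_one_iff_dvd] at h2
      have h3 := Nat.eq_zero_of_dvd_of_lt h2 (ZMod.val_lt s)
      exact h ((ZMod.val_eq_zero s).mp h3)
    have h2 : ∑ k : ZMod q, chi η (s * k) = chi η s * ∑ k : ZMod q, chi η (s * k) := by
      rw [Finset.mul_sum]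
      rw [← Equiv.sum_comp (Equiv.addRight (1 : ZMod q)) (fun k => chi η (s * k))]
      refine Finset.sum_congr rfl fun k _ => ?_
      simp only [Equiv.coe_addRight]
      rw [mul_add, mul_one, chi_add hη.pow_eq_one, mul_comm]
    have h3 : (chi η s - 1) * ∑ k : ZMod q, chi η (s * k) = 0 := by
      rw [sub_mul, one_mul, ← h2, sub_self]
    rcases mul_eq_zero.mp h3 with h4 | h4
    · exact absurd (sub_eq_zero.mp h4) h1
    · exact h4

private theorem YY_two (η : K) (m m' : Mx M q) (j j' : ZMod q) (G : Mx M q → K) (b : Mx M q) :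
    YY η m j (YY η m' j' G) b =
      (q : K)⁻¹ * ((q : K)⁻¹ * ∑ k : ZMod q, ∑ k' : ZMod q, chi η (-(j * k)) * chi η (-(j' * k')) * G (b + k • m + k' • m')) := by
  unfold YY
  congr 1
  rw [Finset.mul_sum]
  refine Finset.sum_congr rfl fun k _ => ?_
  rw [Finset.mul_sum, Finset.mul_sum, Finset.mul_sum]
  refine Finset.sum_congr rfl fun k' _ => ?_
  ring

private theorem YY_YY {η : K} (hη : IsPrimitiveRoot η q) (hq : (q : K) ≠ 0) (m : Mx M q) (j j' : ZMod q) (G : Mx M q → K) :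
    YY η m j (YY η m j' G) = if j' - j = 0 then YY η m j' G else 0 := by
  funext b
  rw [YY_two]
  have h1 : ∑ k : ZMod q, ∑ k' : ZMod q, chi η (-(j * k)) * chi η (-(j' * k')) * G (b + k • m + k' • m) =
      (∑ k : ZMod q, chi η ((j' - j) * k)) * ∑ l : ZMod q, chi η (-(j' * l)) * G (b + l • m) := by
    rw [Finset.sum_mul]
    refine Finset.sum_congr rfl fun k _ => ?_
    rw [← Equiv.sum_comp (Equiv.subRight k) (fun k' => chi η (-(j * k)) * chi η (-(j' * k')) * G (b + k • m + k' • m)),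
      Finset.mul_sum]
    refine Finset.sum_congr rfl fun l _ => ?_
    simp only [Equiv.subRight_apply]
    have h2 : b + k • m + (l - k) • m = b + l • m := by
      rw [add_assoc, ← add_smul]
      congr 2
      ring
    rw [h2, ← mul_assoc, ← chi_add hη.pow_eq_one, ← chi_add hη.pow_eq_one]
    congr 2
    ring
  rw [h1, chi_sum hη]
  split_ifs with h
  · unfold YY
    rw [← mul_assoc (q : K)⁻¹ (q : K), inv_mul_cancel₀ hq, one_mul]
  · rw [zero_mul, mul_zero, mul_zero]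
    rfl

theorem YY_idem {η : K} (hη : IsPrimitiveRoot η q) (hq : (q : K) ≠ 0) (m : Mx M q) (j : ZMod q) (G : Mx M q → K) :
    YY η m j (YY η m j G) = YY η m j G := by
  rw [YY_YY hη hq, if_pos (sub_self j)]

theorem YY_orth {η : K} (hη : IsPrimitiveRoot η q) (hq : (q : K) ≠ 0) (m : Mx M q) {j j' : ZMod q} (h : j ≠ j')
    (G : Mx M q → K) : YY η m j (YY η m j' G) = 0 := by
  rw [YY_YY hη hq, if_neg]
  intro h1
  exact h (sub_eq_zero.mp h1).symm

theorem YY_comm (η : K) (m m' : Mx M q) (j j' : ZMod q) (G : Mx M q → K) :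
    YY η m j (YY η m' j' G) = YY η m' j' (YY η m j G) := by
  funext b
  rw [YY_two, YY_two, Finset.sum_comm]
  congr 2
  refine Finset.sum_congr rfl fun k _ => ?_
  refine Finset.sum_congr rfl fun k' _ => ?_
  rw [mul_comm (chi η (-(j * k'))), add_right_comm]

theorem YY_sum {η : K} (hη : IsPrimitiveRoot η q) (hq : (q : K) ≠ 0) (m : Mx M q) (G : Mx M q → K) :
    ∑ j : ZMod q, YY η m j G = G := by
  funext b
  rw [Finset.sum_apply]
  unfold YY
  rw [← Finset.mul_sum, Finset.sum_comm]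
  have h1 : ∀ k : ZMod q, ∑ j : ZMod q, chi η (-(j * k)) * G (b + k • m) = if k = 0 then (q : K) * G b else 0 := by
    intro k
    rw [← Finset.sum_mul]
    have h2 : ∑ j : ZMod q, chi η (-(j * k)) = ∑ j : ZMod q, chi η (-k * j) := by
      refine Finset.sum_congr rfl fun j _ => ?_
      congr 1
      ring
    rw [h2, chi_sum hη]
    by_cases hk : k = 0
    · subst hk
      rw [if_pos neg_zero, if_pos rfl, zero_smul, add_zero]
    · rw [if_neg (fun h => hk (neg_eq_zero.mp h)), if_neg hk, zero_mul]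
  rw [Finset.sum_congr rfl fun k _ => h1 k, Finset.sum_ite_eq' Finset.univ (0 : ZMod q), if_pos (Finset.mem_univ _),
    ← mul_assoc, inv_mul_cancel₀ hq, one_mul]

theorem YY_add {η : K} (hη : IsPrimitiveRoot η q) (hq : (q : K) ≠ 0) (m₁ m₂ : Mx M q) {i j l : ZMod q} (h : i + j ≠ l)
    (G : Mx M q → K) : YY η m₁ i (YY η m₂ j (YY η (m₁ + m₂) l G)) = 0 := by
  have _ := hq
  funext b
  rw [YY_two]
  have h1 : ∑ k₁ : ZMod q, ∑ k₂ : ZMod q, chi η (-(i * k₁)) * chi η (-(j * k₂)) *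
      YY η (m₁ + m₂) l G (b + k₁ • m₁ + k₂ • m₂) = 0 := by
    have h2 : ∀ k₁ k₂ : ZMod q, chi η (-(i * k₁)) * chi η (-(j * k₂)) * YY η (m₁ + m₂) l G (b + k₁ • m₁ + k₂ • m₂) =
        (q : K)⁻¹ * ∑ k₃ : ZMod q, chi η ((i + j - l) * k₃) *
          (chi η (-(i * (k₁ + k₃))) * chi η (-(j * (k₂ + k₃))) * G (b + (k₁ + k₃) • m₁ + (k₂ + k₃) • m₂)) := by
      intro k₁ k₂
      unfold YY
      rw [mul_left_comm]
      congr 1
      rw [Finset.mul_sum]
      refine Finset.sum_congr rfl fun k₃ _ => ?_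
      have h3 : b + k₁ • m₁ + k₂ • m₂ + k₃ • (m₁ + m₂) = b + (k₁ + k₃) • m₁ + (k₂ + k₃) • m₂ := by
        rw [add_smul, add_smul, smul_add]
        abel
      have h4 : chi η (-(i * k₁)) * chi η (-(j * k₂)) * chi η (-(l * k₃)) =
          chi η ((i + j - l) * k₃) * (chi η (-(i * (k₁ + k₃))) * chi η (-(j * (k₂ + k₃)))) := by
        rw [← chi_add hη.pow_eq_one, ← chi_add hη.pow_eq_one, ← chi_add hη.pow_eq_one, ← chi_add hη.pow_eq_one]
        congr 1
        ring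
      rw [h3, ← mul_assoc, h4, mul_assoc]
    have h5 : ∀ k₁ k₂ : ZMod q, chi η (-(i * k₁)) * chi η (-(j * k₂)) * YY η (m₁ + m₂) l G (b + k₁ • m₁ + k₂ • m₂) =
        (q : K)⁻¹ * ∑ k₃ : ZMod q, chi η ((i + j - l) * k₃) *
          (fun z : ZMod q × ZMod q => chi η (-(i * z.1)) * chi η (-(j * z.2)) * G (b + z.1 • m₁ + z.2 • m₂)) (k₁ + k₃, k₂ + k₃) := h2
    rw [Finset.sum_congr rfl fun k₁ _ => Finset.sum_congr rfl fun k₂ _ => h5 k₁ k₂]
    simp only [← Finset.mul_sum]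
    rw [← Fintype.sum_prod_type' (fun k₁ k₂ : ZMod q => ∑ k₃ : ZMod q, chi η ((i + j - l) * k₃) *
          (fun z : ZMod q × ZMod q => chi η (-(i * z.1)) * chi η (-(j * z.2)) * G (b + z.1 • m₁ + z.2 • m₂)) (k₁ + k₃, k₂ + k₃)),
      Finset.sum_comm]
    have h6 : ∀ k₃ : ZMod q, ∑ x : ZMod q × ZMod q, chi η ((i + j - l) * k₃) *
          (fun z : ZMod q × ZMod q => chi η (-(i * z.1)) * chi η (-(j * z.2)) * G (b + z.1 • m₁ + z.2 • m₂)) (x.1 + k₃, x.2 + k₃) =
        chi η ((i + j - l) * k₃) * ∑ z : ZMod q × ZMod q, chi η (-(i * z.1)) * chi η (-(j * z.2)) * G (b + z.1 • m₁ + z.2 • m₂) := by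
      intro k₃
      rw [← Finset.mul_sum]
      congr 1
      exact Equiv.sum_comp ((Equiv.addRight k₃).prodCongr (Equiv.addRight k₃))
        (fun z : ZMod q × ZMod q => chi η (-(i * z.1)) * chi η (-(j * z.2)) * G (b + z.1 • m₁ + z.2 • m₂))
    rw [Finset.sum_congr rfl fun k₃ _ => h6 k₃, ← Finset.sum_mul, chi_sum hη, if_neg (fun h7 => h (sub_eq_zero.mp h7)), zero_mul,
      mul_zero]
  rw [h1, mul_zero, mul_zero]
  rfl

theorem YY_zero {η : K} (hη : IsPrimitiveRoot η q) (hq : (q : K) ≠ 0) (G : Mx M q → K) : YY η (0 : Mx M q) 0 G = G := by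
  have _ := hη
  funext b
  unfold YY
  simp only [zero_mul, neg_zero, chi_zero, one_mul, smul_zero, add_zero]
  rw [Finset.sum_const, Finset.card_univ, ZMod.card, nsmul_eq_mul, ← mul_assoc, inv_mul_cancel₀ hq, one_mul]

end ACpB
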