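import Pool.Agent.H56.AF.Gauge

/-!
ROW Frame (about 180 lines).  PROOF.  `PP_dd`: `gg (a + dd g) v = gg a v + g v - g 0`, and `dd` of a constant is 0, so `PP (a + dd g) = PP a`.
`x0_gauge`: `x0 (a + dd g) = DD (gg a + g - const (g 0)) (x (wit (PP a))) = om (-(g 0)) • DD g (x0 a)` (`DD_add`, `DD_const`).
`x0_wit`: `Cov A L a`; `PP a = a + dd (-(gg a))`, so `Cov A L (PP a)` (`Cov_dd`) and `b₁ = wit (PP a)` has `b₁ ∈ A`, `Rch L b₁ (PP a)`; `b = b₁ + dd (gg a) ∈ A` (`wit_gau`), `Rch L b a` (same list), and `x b = om k • DD (gg a) (x b₁) = om k • x0 a`,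
so `x0 a = om (-k) • x b`.   `x0_one`, `x0_sml`: from `x0_wit`, `Wit.one`, `Wit.sml`, `nsq_smul`, `om_norm`.
`tt_gauge`: `x0 (a + dd g + m) = x0 ((a + m) + dd g)`; `nsq (om s • x0 (a + m + dd g) - x0 (a + dd g)) = nsq (om (-(g 0)) • DD g (om s • x0 (a + m) - x0 a)) = nsq (om s • x0 (a + m) - x0 a)`: the predicates in the definition of `tt`
are equal (`funext`, `propext`), so the values are equal.
`close`: `Cov A L a`, `Cov A L b`, `Rch 3 a b`: witnesses `c` of `a`, `c'` of `b` (`x0_wit`), `Rch (2 L + 3) c c'` (`Rch_trans`, `Rch_symm`), so `Wit.clo` gives `nsq (x c' - om k • x c) ≤ 1/(20 q)^2`; multiply by powers of `om`.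
`tt_star`: `m = k • dd e_v = dd (k • e_v)`; `x0 (a + m) = om (-(k [v = 0])) • DD (k • e_v) (x0 a)`; with `s = k * cM v` (`v.val = 0 ↔ v = 0`): `nsq (om s • x0 (a + m) - x0 a) = nsq (DD (k • e_v) (x0 a) - x0 a) = ‖om k - 1‖^2 ‖x0 a v‖^2 ≤ 4/(20 q)^2 ≤ 1/q^2`.
So the `choose` exists and equals `s` by `uniq` (`nsq (x0 (a + m)) = 1` from `x0_gauge`, `nsq_DD`, `x0_one`).
-/

set_option autoImplicit false

namespace ACpB

open ACpFrege

variable {M q : ℕ} [NeZero M] [NeZero q]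

omit [NeZero q] in
private theorem Frame_choose {p p' : ZMod q → Prop} (h : p = p') (hp : ∃ s, p s) (hp' : ∃ s, p' s) :
    hp.choose = hp'.choose := by
  subst h
  rfl

private theorem Frame_PP_eq (a : Mx M q) : PP a = a + dd (-(gg a)) := by
  rw [dd_neg]
  exact sub_eq_add_neg a (dd (gg a))

omit [NeZero M] [NeZero q] in
private theorem Frame_dd_const (c : ZMod q) : dd (fun _ : Fin M => c) = (0 : Mx M q) := by
  funext u v
  show c - c = 0
  exact sub_self c

omit [NeZero q] in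
private theorem Frame_gg_dd (a : Mx M q) (g : Fin M → ZMod q) : gg (a + dd g) = gg a + g + (fun _ => -(g 0)) := by
  funext v
  show -(a 0 v + (g 0 - g v)) = -a 0 v + g v + -(g 0)
  ring

theorem PP_dd (a : Mx M q) (g : Fin M → ZMod q) : PP (a + dd g) = PP a := by
  show a + dd g - dd (gg (a + dd g)) = a - dd (gg a)
  rw [Frame_gg_dd, dd_add, dd_add, Frame_dd_const]
  abel

theorem x0_gauge (A : Set (Mx M q)) (L : ℕ) (x : Mx M q → Fin M → ℂ) (a : Mx M q) (g : Fin M → ZMod q) :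
    x0 A L x (a + dd g) = om q (-(g 0)) • DD q g (x0 A L x a) := by
  show DD q (gg (a + dd g)) (x (wit A L (PP (a + dd g)))) = om q (-(g 0)) • DD q g (DD q (gg a) (x (wit A L (PP a))))
  rw [PP_dd, Frame_gg_dd, DD_add, ← DD_const, DD_add]
  congr 1
  abel

theorem tt_gauge (A : Set (Mx M q)) (L : ℕ) (x : Mx M q → Fin M → ℂ) (m a : Mx M q) (g : Fin M → ZMod q) :
    tt A L x m (a + dd g) = tt A L x m a := by
  have key : (fun s : ZMod q => nsq (om q s • x0 A L x (a + dd g + m) - x0 A L x (a + dd g)) ≤ 1 / (q : ℝ) ^ 2) =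
      fun s : ZMod q => nsq (om q s • x0 A L x (a + m) - x0 A L x a) ≤ 1 / (q : ℝ) ^ 2 := by
    funext s
    have h1 : a + dd g + m = a + m + dd g := by abel
    have h2 : om q s • x0 A L x (a + dd g + m) - x0 A L x (a + dd g) =
        om q (-(g 0)) • DD q g (om q s • x0 A L x (a + m) - x0 A L x a) := by
      rw [h1, x0_gauge, x0_gauge, DD_sub, DD_smul, smul_sub, smul_comm]
    rw [h2, nsq_smul, nsq_DD, om_norm, one_pow, one_mul]
  unfold tt
  have key2 : (∃ s : ZMod q, nsq (om q s • x0 A L x (a + dd g + m) - x0 A L x (a + dd g)) ≤ 1 / (q : ℝ) ^ 2) =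
      ∃ s : ZMod q, nsq (om q s • x0 A L x (a + m) - x0 A L x a) ≤ 1 / (q : ℝ) ^ 2 := congrArg Exists key
  by_cases h : ∃ s : ZMod q, nsq (om q s • x0 A L x (a + m) - x0 A L x a) ≤ 1 / (q : ℝ) ^ 2
  · have h' : ∃ s : ZMod q, nsq (om q s • x0 A L x (a + dd g + m) - x0 A L x (a + dd g)) ≤ 1 / (q : ℝ) ^ 2 := by
      rw [key2]
      exact h
    rw [dif_pos h, dif_pos h']
    exact Frame_choose key h' h
  · have h' : ¬ ∃ s : ZMod q, nsq (om q s • x0 A L x (a + dd g + m) - x0 A L x (a + dd g)) ≤ 1 / (q : ℝ) ^ 2 := by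
      rw [key2]
      exact h
    rw [dif_neg h, dif_neg h']

theorem x0_wit {R L : ℕ} {A : Set (Mx M q)} {x : Mx M q → Fin M → ℂ} (hW : Wit R A x) {a : Mx M q} (h : Cov A L a) :
    ∃ b ∈ A, Rch L b a ∧ ∃ k : ZMod q, x0 A L x a = om q k • x b := by
  have hP : Cov A L (PP a) := by
    rw [Frame_PP_eq]
    exact (Cov_dd hW L a (-(gg a))).2 h
  have hw : wit A L (PP a) = hP.choose := by
    unfold wit
    rw [dif_pos hP]
  obtain ⟨hc1, l, hl, hl2⟩ := hP.choose_spec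
  rw [← hw] at hc1 hl2
  obtain ⟨hb, k, hk⟩ := wit_gau hW hc1 (gg a)
  refine ⟨wit A L (PP a) + dd (gg a), hb, ⟨l, hl, ?_⟩, -k, ?_⟩
  · have h1 : a = PP a + dd (gg a) := by
      show a = a - dd (gg a) + dd (gg a)
      abel
    calc a = PP a + dd (gg a) := h1
      _ = wit A L (PP a) + tot l + dd (gg a) := congrArg (fun z => z + dd (gg a)) hl2
      _ = wit A L (PP a) + dd (gg a) + tot l := by abel
  · rw [hk, smul_smul, ← om_add, neg_add_cancel, om_zero, one_smul]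
    rfl

theorem x0_one {R L : ℕ} {A : Set (Mx M q)} {x : Mx M q → Fin M → ℂ} (hW : Wit R A x) {a : Mx M q} (h : Cov A L a) :
    nsq (x0 A L x a) = 1 := by
  obtain ⟨b, hb, -, k, hk⟩ := x0_wit hW h
  rw [hk, nsq_smul, om_norm, one_pow, one_mul, hW.one b hb]

theorem x0_sml {R L : ℕ} {A : Set (Mx M q)} {x : Mx M q → Fin M → ℂ} (hW : Wit R A x) {a : Mx M q} (h : Cov A L a)
    (v : Fin M) : ‖x0 A L x a v‖ ^ 2 ≤ 1 / (20 * (q : ℝ)) ^ 2 := by
  obtain ⟨b, hb, -, k, hk⟩ := x0_wit hW h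
  rw [hk]
  show ‖om q k * x b v‖ ^ 2 ≤ 1 / (20 * (q : ℝ)) ^ 2
  rw [norm_mul, om_norm, one_mul]
  exact hW.sml b hb v

theorem close {R L : ℕ} (hR : 2 * L + 3 ≤ R) {A : Set (Mx M q)} {x : Mx M q → Fin M → ℂ} (hW : Wit R A x)
    {a b : Mx M q} (ha : Cov A L a) (hb : Cov A L b) (h : Rch 3 a b) :
    ∃ s : ZMod q, nsq (om q s • x0 A L x b - x0 A L x a) ≤ 1 / (20 * (q : ℝ)) ^ 2 := by
  obtain ⟨c, hc, hca, k1, hk1⟩ := x0_wit hW ha
  obtain ⟨c', hc', hcb, k2, hk2⟩ := x0_wit hW hb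
  obtain ⟨l, hl, hl2⟩ := Rch_trans (Rch_trans hca h) (Rch_symm hcb)
  obtain ⟨k, hk⟩ := hW.clo c hc l (by omega) (hl2 ▸ hc')
  rw [← hl2] at hk
  refine ⟨k1 - k - k2, ?_⟩
  have h1 : om q (k1 - k - k2) • x0 A L x b - x0 A L x a = om q (k1 - k) • (x c' - om q k • x c) := by
    rw [hk1, hk2, smul_sub, smul_smul, smul_smul, ← om_add, ← om_add]
    congr 3
    · abel
    · abel
  rw [h1, nsq_smul, om_norm, one_pow, one_mul]
  exact hk

theorem tt_star (hq : 3 ≤ q) {R L : ℕ} {A : Set (Mx M q)} {x : Mx M q → Fin M → ℂ} (hW : Wit R A x) {a : Mx M q}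
    (h : Cov A L a) (v : Fin M) (k : ZMod q) : tt A L x (k • mv q (.inr (v, Fin.last M))) a = k * cM q v := by
  have hm : k • mv q (.inr (v, Fin.last M)) = dd (fun u : Fin M => if u = v then k else 0) := by
    rw [mv_yM]
    funext i j
    show k * ((Pi.single v (1 : ZMod q) : Fin M → ZMod q) i - (Pi.single v (1 : ZMod q) : Fin M → ZMod q) j) =
      (if i = v then k else 0) - (if j = v then k else 0)
    rw [Pi.single_apply, Pi.single_apply]
    split_ifs <;> ring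
  have hc : k * cM q v = if (0 : Fin M) = v then k else 0 := by
    unfold cM
    by_cases h0 : (0 : Fin M) = v
    · rw [if_pos h0, if_pos (by rw [← h0]; rfl), mul_one]
    · rw [if_neg h0, if_neg (fun h1 => h0 (Fin.ext (by rw [h1]; rfl))), mul_zero]
  rw [hm, hc]
  have h2 : om q (if (0 : Fin M) = v then k else 0) • x0 A L x (a + dd (fun u : Fin M => if u = v then k else 0)) -
      x0 A L x a = fun u => if u = v then (om q k - 1) * x0 A L x a v else 0 := by
    rw [x0_gauge, smul_smul, ← om_add, add_neg_cancel, om_zero, one_smul]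
    funext u
    show om q (if u = v then k else 0) * x0 A L x a u - x0 A L x a u = if u = v then (om q k - 1) * x0 A L x a v else 0
    by_cases hu : u = v
    · rw [if_pos hu, if_pos hu, hu]
      ring
    · rw [if_neg hu, if_neg hu, om_zero]
      ring
  have h3 : nsq (om q (if (0 : Fin M) = v then k else 0) • x0 A L x (a + dd (fun u : Fin M => if u = v then k else 0)) -
      x0 A L x a) ≤ 1 / (q : ℝ) ^ 2 := by
    rw [h2]
    unfold nsq
    have h4 : ∀ u : Fin M, ‖(if u = v then (om q k - 1) * x0 A L x a v else 0 : ℂ)‖ ^ 2 =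
        if u = v then ‖(om q k - 1) * x0 A L x a v‖ ^ 2 else 0 := by
      intro u
      split_ifs
      · rfl
      · rw [norm_zero]
        norm_num
    rw [Finset.sum_congr rfl fun u _ => h4 u, Finset.sum_ite_eq' Finset.univ v, if_pos (Finset.mem_univ v), norm_mul, mul_pow]
    have h5 : ‖om q k - 1‖ ≤ 2 := by
      refine (norm_sub_le _ _).trans ?_
      rw [om_norm, norm_one]
      norm_num
    have h6 := x0_sml hW h v
    have h7 : ‖om q k - 1‖ ^ 2 ≤ 4 := by nlinarith [norm_nonneg (om q k - 1)]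
    have h8 : (1 : ℝ) / (20 * (q : ℝ)) ^ 2 = 1 / (q : ℝ) ^ 2 / 400 := by
      rw [mul_pow, div_div]
      norm_num
      ring
    have h9 : (0 : ℝ) ≤ 1 / (q : ℝ) ^ 2 := by positivity
    rw [h8] at h6
    calc ‖om q k - 1‖ ^ 2 * ‖x0 A L x a v‖ ^ 2 ≤ 4 * (1 / (q : ℝ) ^ 2 / 400) :=
          mul_le_mul h7 h6 (sq_nonneg _) (by norm_num)
      _ ≤ 1 / (q : ℝ) ^ 2 := by linarith
  have hz : nsq (x0 A L x (a + dd (fun u : Fin M => if u = v then k else 0))) = 1 := by
    rw [x0_gauge, nsq_smul, nsq_DD, om_norm, one_pow, one_mul, x0_one hW h]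
  have hex : ∃ s : ZMod q, nsq (om q s • x0 A L x (a + dd (fun u : Fin M => if u = v then k else 0)) - x0 A L x a) ≤ 1 / (q : ℝ) ^ 2 :=
    ⟨_, h3⟩
  unfold tt
  rw [dif_pos hex]
  exact uniq hq hz hex.choose_spec h3

end ACpB
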