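import Pool.Agent.H56.AF.BDefs

/-!
ROW Moves (about 150 lines; elementary).  PROOF.  All by `funext u v`, `simp [mv, mvx, dd, anti]` and case distinctions.  `mv_yM`: `∑ u, mvx q v u` over all `u` (every `u.val < M`), entry `(i, j)`:
`∑ u, ([i = v ∧ j = u] - [i = u ∧ j = v]) = [i = v] - [j = v]`.   `mv_step`: the filter for `t.succ` is that for `t.castSucc` with `t` inserted.
`mv_anti`: an antisymmetric matrix with zero diagonal `a` is `anti a`.   `anti_dd`: `dd g = anti (dd g)`, `anti_add`.
`tot_append`, `tot_neg`: `List.sum_append`; the inverse of the move `(ν, k)` is `(ν, -k)`.  `Rch_symm`: reversed list with negated `k`.  `Rch_trans`: concatenation.  `Rch_move`: the list `[(ν, k)]`.  `Rch_mono`, `Rch_refl` (empty list).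
`Cov_step`: `Cov A j (b + k • mv ν) → Cov A (j + 1) b` by the move `(ν, -k)`.
-/

set_option autoImplicit false

namespace ACpB

open ACpFrege

variable {M q : ℕ}

theorem mv_diag (v : Fin M) : mv q (.inl (v, v)) = 0 := by
  funext i j
  show (if i = v ∧ j = v then (1 : ZMod q) else 0) - (if i = v ∧ j = v then 1 else 0) = 0
  exact sub_self _

theorem mv_y0 (v : Fin M) : mv q (.inr (v, 0)) = 0 := by
  show (∑ u ∈ Finset.univ.filter (fun u : Fin M => u.val < ((0 : Fin (M + 1))).val), mvx q v u) = 0
  refine Finset.sum_eq_zero fun u hu => ?_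
  have h := (Finset.mem_filter.1 hu).2
  simp at h

theorem mv_yM (v : Fin M) : mv q (.inr (v, Fin.last M)) = dd (Pi.single v (1 : ZMod q)) := by
  show (∑ u ∈ Finset.univ.filter (fun u : Fin M => u.val < (Fin.last M).val), mvx q v u) = _
  have hf : Finset.univ.filter (fun u : Fin M => u.val < (Fin.last M).val) = Finset.univ := by
    refine Finset.filter_true_of_mem fun u _ => ?_
    rw [Fin.val_last]
    exact u.isLt
  rw [hf]
  funext i j
  rw [Finset.sum_apply, Finset.sum_apply]
  unfold mvx dd
  rw [Finset.sum_sub_distrib]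
  have h1 : (∑ u : Fin M, (if i = v ∧ j = u then (1 : ZMod q) else 0)) = (Pi.single v (1 : ZMod q) : Fin M → ZMod q) i := by
    rw [Pi.single_apply]
    by_cases hi : i = v
    · rw [if_pos hi]
      rw [Finset.sum_eq_single j]
      · rw [if_pos ⟨hi, rfl⟩]
      · intro u _ hu
        rw [if_neg]
        rintro ⟨_, h⟩
        exact hu h.symm
      · intro h
        exact absurd (Finset.mem_univ _) h
    · rw [if_neg hi]
      refine Finset.sum_eq_zero fun u _ => ?_
      rw [if_neg]
      rintro ⟨h, _⟩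
      exact hi h
  have h2 : (∑ u : Fin M, (if i = u ∧ j = v then (1 : ZMod q) else 0)) = (Pi.single v (1 : ZMod q) : Fin M → ZMod q) j := by
    rw [Pi.single_apply]
    by_cases hj : j = v
    · rw [if_pos hj]
      rw [Finset.sum_eq_single i]
      · rw [if_pos ⟨rfl, hj⟩]
      · intro u _ hu
        rw [if_neg]
        rintro ⟨h, _⟩
        exact hu h.symm
      · intro h
        exact absurd (Finset.mem_univ _) h
    · rw [if_neg hj]
      refine Finset.sum_eq_zero fun u _ => ?_
      rw [if_neg]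
      rintro ⟨_, h⟩
      exact hj h
  rw [h1, h2]

theorem mv_sym (u v : Fin M) : mv q (.inl (u, v)) + mv q (.inl (v, u)) = mv q (.inr (u, 0)) := by
  rw [mv_y0]
  funext i j
  show ((if i = u ∧ j = v then (1 : ZMod q) else 0) - (if i = v ∧ j = u then 1 else 0)) +
    ((if i = v ∧ j = u then (1 : ZMod q) else 0) - (if i = u ∧ j = v then 1 else 0)) = 0
  ring

theorem mv_step (v t : Fin M) : mv q (.inr (v, t.castSucc)) + mv q (.inl (v, t)) = mv q (.inr (v, t.succ)) := by
  show (∑ u ∈ Finset.univ.filter (fun u : Fin M => u.val < (t.castSucc).val), mvx q v u) + mvx q v t =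
    ∑ u ∈ Finset.univ.filter (fun u : Fin M => u.val < (t.succ).val), mvx q v u
  have hf : Finset.univ.filter (fun u : Fin M => u.val < (t.succ).val) =
      insert t (Finset.univ.filter (fun u : Fin M => u.val < (t.castSucc).val)) := by
    ext u
    simp only [Finset.mem_filter, Finset.mem_univ, true_and, Finset.mem_insert, Fin.val_succ, Fin.val_castSucc]
    constructor
    · intro h
      by_cases h' : u = t
      · exact Or.inl h'
      · refine Or.inr ?_
        have : u.val ≠ t.val := fun h'' => h' (Fin.ext h'')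
        omega
    · rintro (h | h)
      · rw [h]
        exact Nat.lt_succ_self _
      · omega
  rw [hf, Finset.sum_insert, add_comm]
  simp

theorem anti_add (c c' : Mx M q) : anti (c + c') = anti c + anti c' := by
  funext u v
  show anti (c + c') u v = anti c u v + anti c' u v
  unfold anti
  split_ifs
  · rfl
  · show -(c v u + c' v u) = _
    ring
  · ring

private theorem Moves_char (a : Mx M q) :
    a ∈ Set.range (anti (M := M) (q := q)) ↔ (∀ u, a u u = 0) ∧ ∀ u v, a u v = -a v u := by
  constructor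
  · rintro ⟨c, rfl⟩
    refine ⟨fun u => ?_, fun u v => ?_⟩
    · unfold anti
      rw [if_neg (lt_irrefl u), if_neg (lt_irrefl u)]
    · unfold anti
      rcases lt_trichotomy u v with h | h | h
      · rw [if_pos h, if_neg (not_lt.2 h.le), if_pos h, neg_neg]
      · subst h
        simp
      · rw [if_neg (not_lt.2 h.le), if_pos h, if_pos h]
  · rintro ⟨h0, h1⟩
    refine ⟨a, ?_⟩
    funext u v
    unfold anti
    rcases lt_trichotomy u v with h | h | h
    · rw [if_pos h]
    · subst h
      rw [if_neg (lt_irrefl u), if_neg (lt_irrefl u), h0]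
    · rw [if_neg (not_lt.2 h.le), if_pos h, h1 u v]

private theorem Moves_mvx_diag (u v i : Fin M) : mvx q u v i i = 0 := by
  unfold mvx
  by_cases h : i = u ∧ i = v
  · rw [if_pos h, if_pos ⟨h.2, h.1⟩, sub_self]
  · rw [if_neg h, if_neg fun h' => h ⟨h'.2, h'.1⟩, sub_self]

private theorem Moves_mvx_anti (u v i j : Fin M) : mvx q u v i j = -mvx q u v j i := by
  unfold mvx
  rw [neg_sub]
  have e1 : (i = u ∧ j = v) = (j = v ∧ i = u) := propext and_comm
  have e2 : (i = v ∧ j = u) = (j = u ∧ i = v) := propext and_comm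
  simp only [e1, e2]

theorem mv_anti (ν : Vr M) : mv q ν ∈ Set.range (anti (M := M) (q := q)) := by
  rw [Moves_char]
  rcases ν with ⟨a, b⟩ | ⟨a, t⟩
  · exact ⟨fun u => Moves_mvx_diag a b u, fun u v => Moves_mvx_anti a b u v⟩
  · have e : ∀ i j, mv q (.inr (a, t)) i j = ∑ w ∈ Finset.univ.filter (fun w : Fin M => w.val < t.val), mvx q a w i j := by
      intro i j
      show (∑ w ∈ Finset.univ.filter (fun w : Fin M => w.val < t.val), mvx q a w) i j = _
      rw [Finset.sum_apply, Finset.sum_apply]
    refine ⟨fun u => ?_, fun u v => ?_⟩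
    · rw [e]
      exact Finset.sum_eq_zero fun w _ => Moves_mvx_diag a w u
    · rw [e, e, ← Finset.sum_neg_distrib]
      exact Finset.sum_congr rfl fun w _ => Moves_mvx_anti a w u v

theorem anti_mv {a : Mx M q} (h : a ∈ Set.range (anti (M := M) (q := q))) (k : ZMod q) (ν : Vr M) :
    a + k • mv q ν ∈ Set.range (anti (M := M) (q := q)) := by
  rw [Moves_char] at h ⊢
  have h' := (Moves_char _).1 (mv_anti (q := q) ν)
  refine ⟨fun u => ?_, fun u v => ?_⟩
  · show a u u + k * mv q ν u u = 0
    rw [h.1, h'.1, mul_zero, add_zero]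
  · show a u v + k * mv q ν u v = -(a v u + k * mv q ν v u)
    rw [h.2 u v, h'.2 u v]
    ring

theorem anti_dd (a : Mx M q) (g : Fin M → ZMod q) :
    a + dd g ∈ Set.range (anti (M := M) (q := q)) ↔ a ∈ Set.range (anti (M := M) (q := q)) := by
  rw [Moves_char, Moves_char]
  constructor
  · rintro ⟨h0, h1⟩
    refine ⟨fun u => ?_, fun u v => ?_⟩
    · have := h0 u
      change a u u + (g u - g u) = 0 at this
      rw [sub_self, add_zero] at this
      exact this
    · have := h1 u v
      change a u v + (g u - g v) = -(a v u + (g v - g u)) at this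
      linear_combination this
  · rintro ⟨h0, h1⟩
    refine ⟨fun u => ?_, fun u v => ?_⟩
    · show a u u + (g u - g u) = 0
      rw [sub_self, add_zero]
      exact h0 u
    · show a u v + (g u - g v) = -(a v u + (g v - g u))
      rw [h1 u v]
      ring

private theorem Moves_tot_append (l l' : List (Vr M × ZMod q)) : tot (l ++ l') = tot l + tot l' := by
  unfold tot
  rw [List.map_append, List.sum_append]

private theorem Moves_tot_cons (z : Vr M × ZMod q) (l : List (Vr M × ZMod q)) : tot (z :: l) = z.2 • mv q z.1 + tot l := by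
  unfold tot
  rw [List.map_cons, List.sum_cons]

private theorem Moves_tot_nil : tot ([] : List (Vr M × ZMod q)) = 0 := rfl

private theorem Moves_tot_neg (l : List (Vr M × ZMod q)) : tot (l.map fun z => (z.1, -z.2)) = -tot l := by
  induction l with
  | nil => rw [List.map_nil, Moves_tot_nil, neg_zero]
  | cons z l ih =>
    rw [List.map_cons, Moves_tot_cons, Moves_tot_cons, ih, neg_smul, neg_add]

theorem Rch_refl (r : ℕ) (a : Mx M q) : Rch r a a :=
  ⟨[], Nat.zero_le _, by rw [Moves_tot_nil, add_zero]⟩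

theorem Rch_mono {r r' : ℕ} (h : r ≤ r') {a b : Mx M q} (hr : Rch r a b) : Rch r' a b := by
  obtain ⟨l, hl, e⟩ := hr
  exact ⟨l, hl.trans h, e⟩

theorem Rch_move (a : Mx M q) (k : ZMod q) (ν : Vr M) : Rch 1 a (a + k • mv q ν) :=
  ⟨[(ν, k)], le_refl _, by rw [Moves_tot_cons, Moves_tot_nil, add_zero]⟩

theorem Rch_symm {r : ℕ} {a b : Mx M q} (h : Rch r a b) : Rch r b a := by
  obtain ⟨l, hl, e⟩ := h
  refine ⟨l.map fun z => (z.1, -z.2), ?_, ?_⟩
  · rw [List.length_map]
    exact hl
  · rw [Moves_tot_neg, e, add_neg_cancel_right]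

theorem Rch_trans {r r' : ℕ} {a b c : Mx M q} (h : Rch r a b) (h' : Rch r' b c) : Rch (r + r') a c := by
  obtain ⟨l, hl, e⟩ := h
  obtain ⟨l', hl', e'⟩ := h'
  refine ⟨l ++ l', ?_, ?_⟩
  · rw [List.length_append]
    exact Nat.add_le_add hl hl'
  · rw [Moves_tot_append, e', e, add_assoc]

theorem Rch_anti {r : ℕ} {a b : Mx M q} (h : Rch r a b) (ha : a ∈ Set.range (anti (M := M) (q := q))) :
    b ∈ Set.range (anti (M := M) (q := q)) := by
  obtain ⟨l, hl, e⟩ := h
  rw [e]
  clear e hl
  induction l generalizing a with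
  | nil =>
    rw [Moves_tot_nil, add_zero]
    exact ha
  | cons z l ih =>
    rw [Moves_tot_cons, ← add_assoc]
    exact ih (anti_mv ha z.2 z.1)

theorem Cov_zero {A : Set (Mx M q)} {b : Mx M q} : Cov A 0 b ↔ b ∈ A := by
  constructor
  · rintro ⟨a, ha, l, hl, e⟩
    have hl' : l = [] := List.length_eq_zero_iff.1 (Nat.le_zero.1 hl)
    rw [hl', Moves_tot_nil, add_zero] at e
    rw [e]
    exact ha
  · intro h
    exact ⟨b, h, Rch_refl 0 b⟩

theorem Cov_mono {A : Set (Mx M q)} {j j' : ℕ} (h : j ≤ j') {b : Mx M q} (hb : Cov A j b) : Cov A j' b := by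
  obtain ⟨a, ha, hr⟩ := hb
  exact ⟨a, ha, Rch_mono h hr⟩

theorem Cov_rch {A : Set (Mx M q)} {j r : ℕ} {b c : Mx M q} (hb : Cov A j b) (h : Rch r c b) : Cov A (j + r) c := by
  obtain ⟨a, ha, hr⟩ := hb
  exact ⟨a, ha, Rch_trans hr (Rch_symm h)⟩

theorem Cov_step {A : Set (Mx M q)} {j : ℕ} {b : Mx M q} (k : ZMod q) (ν : Vr M) (h : Cov A j (b + k • mv q ν)) :
    Cov A (j + 1) b :=
  Cov_rch h (Rch_move b k ν)

end ACpB
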