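import Pool.Agent.H56.AF.Om
import Pool.Agent.H56.AF.Moves

/-!
ROW Gauge (about 130 lines).  PROOF.  `dd_add, dd_neg, DD_add, DD_zero, DD_smul, DD_sub, nsq_DD`: entrywise (`om_add`, `om_zero`, `om_norm` of H88/AF/OmF).  `DD_const`: `DD` of a constant function is multiplication by `om`.
`wit_gau`: `dl q v = dd (Pi.single v 1)` (`mv_yM`), `rot q v x = DD q (Pi.single v 1) x` (`om_zero`).  The set of `g` with [∀ a ∈ A, a + dd g ∈ A ∧ ∃ k, x (a + dd g) = om q k • DD q g (x a)] contains `0` and all `Pi.single v 1` (`Wit.gau`) and is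
closed under addition (`dd_add`, `DD_add`, `DD_smul`, `om_add`), hence contains all `g = ∑ v, (g v).val • Pi.single v 1` (induction over `Finset` and over naturals; or `Finset.sum_induction` and `nsmul` induction; `ZMod.natCast_zmod_val`).
`Cov_dd`: from `a ∈ A`, `b = a + tot l`: `b + dd g = (a + dd g) + tot l`; the converse with `-g`.
-/

set_option autoImplicit false

namespace ACpB

open ACpFrege

variable {M q : ℕ} [NeZero q]

theorem dd_add (g g' : Fin M → ZMod q) : dd (g + g') = dd g + dd g' := by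
  funext u v
  show (g u + g' u) - (g v + g' v) = (g u - g v) + (g' u - g' v)
  ring

theorem dd_neg (g : Fin M → ZMod q) : dd (-g) = -dd g := by
  funext u v
  show -g u - -g v = -(g u - g v)
  ring

theorem DD_add (g g' : Fin M → ZMod q) (x : Fin M → ℂ) : DD q g (DD q g' x) = DD q (g + g') x := by
  funext u
  show om q (g u) * (om q (g' u) * x u) = om q (g u + g' u) * x u
  rw [om_add]
  ring

theorem DD_zero (x : Fin M → ℂ) : DD q (0 : Fin M → ZMod q) x = x := by
  funext u
  show om q (0 : ZMod q) * x u = x u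
  rw [om_zero, one_mul]

theorem DD_const (c : ZMod q) (x : Fin M → ℂ) : DD q (fun _ => c) x = om q c • x := by
  funext u
  rfl

theorem DD_smul (g : Fin M → ZMod q) (c : ℂ) (x : Fin M → ℂ) : DD q g (c • x) = c • DD q g x := by
  funext u
  show om q (g u) * (c * x u) = c * (om q (g u) * x u)
  ring

theorem DD_sub (g : Fin M → ZMod q) (x y : Fin M → ℂ) : DD q g (x - y) = DD q g x - DD q g y := by
  funext u
  show om q (g u) * (x u - y u) = om q (g u) * x u - om q (g u) * y u
  ring

theorem nsq_DD (g : Fin M → ZMod q) (x : Fin M → ℂ) : nsq (DD q g x) = nsq x := by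
  unfold nsq
  refine Finset.sum_congr rfl fun u _ => ?_
  show ‖om q (g u) * x u‖ ^ 2 = ‖x u‖ ^ 2
  rw [norm_mul, om_norm, one_mul]

/-- The gauge property. -/
private def Gauge_P (A : Set (Mx M q)) (x : Mx M q → Fin M → ℂ) (g : Fin M → ZMod q) : Prop :=
  ∀ a ∈ A, a + dd g ∈ A ∧ ∃ k : ZMod q, x (a + dd g) = om q k • DD q g (x a)

private theorem Gauge_P_zero (A : Set (Mx M q)) (x : Mx M q → Fin M → ℂ) : Gauge_P A x 0 := by
  intro a ha
  have h0 : (dd (0 : Fin M → ZMod q)) = 0 := by
    funext u v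
    show (0 : ZMod q) - 0 = 0
    ring
  rw [h0, add_zero]
  refine ⟨ha, 0, ?_⟩
  rw [DD_zero, om_zero, one_smul]

private theorem Gauge_P_add {A : Set (Mx M q)} {x : Mx M q → Fin M → ℂ} {g g' : Fin M → ZMod q} (h : Gauge_P A x g)
    (h' : Gauge_P A x g') : Gauge_P A x (g + g') := by
  intro a ha
  obtain ⟨h1, k1, h2⟩ := h a ha
  obtain ⟨h3, k2, h4⟩ := h' _ h1
  rw [dd_add, ← add_assoc]
  refine ⟨h3, k2 + k1, ?_⟩
  rw [h4, h2, DD_smul, DD_add, smul_smul, om_add, add_comm g' g]

private theorem Gauge_P_single {R : ℕ} {A : Set (Mx M q)} {x : Mx M q → Fin M → ℂ} (hW : Wit R A x) (v : Fin M) :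
    Gauge_P A x (Pi.single v (1 : ZMod q)) := by
  intro a ha
  have h := hW.gau a ha v
  have h1 : dl q v = dd (Pi.single v (1 : ZMod q)) := mv_yM v
  have h2 : rot q v (x a) = DD q (Pi.single v (1 : ZMod q)) (x a) := by
    funext u
    show (if u = v then om q 1 * x a u else x a u) = om q ((Pi.single v (1 : ZMod q) : Fin M → ZMod q) u) * x a u
    by_cases hu : u = v
    · subst hu
      rw [if_pos rfl, Pi.single_eq_same]
    · rw [if_neg hu, Pi.single_eq_of_ne hu, om_zero, one_mul]
  rw [h1, h2] at h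
  exact h

private theorem Gauge_P_nat {R : ℕ} {A : Set (Mx M q)} {x : Mx M q → Fin M → ℂ} (hW : Wit R A x) (v : Fin M) (n : ℕ) :
    Gauge_P A x (Pi.single v (n : ZMod q)) := by
  induction n with
  | zero =>
    rw [Nat.cast_zero, Pi.single_zero]
    exact Gauge_P_zero A x
  | succ n ih =>
    rw [Nat.cast_add, Nat.cast_one, Pi.single_add]
    exact Gauge_P_add ih (Gauge_P_single hW v)

private theorem Gauge_P_all {R : ℕ} {A : Set (Mx M q)} {x : Mx M q → Fin M → ℂ} (hW : Wit R A x) (g : Fin M → ZMod q) :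
    Gauge_P A x g := by
  have h : ∀ s : Finset (Fin M), Gauge_P A x (∑ v ∈ s, Pi.single v (g v)) := by
    intro s
    induction s using Finset.induction_on with
    | empty =>
      rw [Finset.sum_empty]
      exact Gauge_P_zero A x
    | insert v s hv ih =>
      rw [Finset.sum_insert hv]
      refine Gauge_P_add ?_ ih
      have h1 := Gauge_P_nat hW v (g v).val
      rwa [ZMod.natCast_zmod_val] at h1
  have h2 := h Finset.univ
  rwa [Finset.univ_sum_single] at h2

theorem wit_gau {R : ℕ} {A : Set (Mx M q)} {x : Mx M q → Fin M → ℂ} (hW : Wit R A x) {a : Mx M q} (ha : a ∈ A)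
    (g : Fin M → ZMod q) : a + dd g ∈ A ∧ ∃ k : ZMod q, x (a + dd g) = om q k • DD q g (x a) := by
  exact Gauge_P_all hW g a ha

private theorem Gauge_Cov {R : ℕ} {A : Set (Mx M q)} {x : Mx M q → Fin M → ℂ} (hW : Wit R A x) (r : ℕ) (b : Mx M q)
    (g : Fin M → ZMod q) (h : Cov A r b) : Cov A r (b + dd g) := by
  obtain ⟨a, ha, l, hl, rfl⟩ := h
  exact ⟨a + dd g, (wit_gau hW ha g).1, l, hl, add_right_comm a (tot l) (dd g)⟩

theorem Cov_dd {R : ℕ} {A : Set (Mx M q)} {x : Mx M q → Fin M → ℂ} (hW : Wit R A x) (r : ℕ) (b : Mx M q)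
    (g : Fin M → ZMod q) : Cov A r (b + dd g) ↔ Cov A r b := by
  refine ⟨fun h => ?_, Gauge_Cov hW r b g⟩
  have h1 := Gauge_Cov hW r _ (-g) h
  rwa [dd_neg, add_neg_cancel_right] at h1

end ACpB
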