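import Pool.Agent.H56.AF.Frame

/-!
ROW Label (about 90 lines).  PROOF.  `label`: for `b` with `Cov A L b`, `Rch 3 a b` let `lam b` be an `s` with `nsq (om s • x0 b - x0 a) ≤ 1/(20 q)^2` (`close`; `choose`).  For `b, b'`:
`nsq (om (lam b' - lam b) • x0 b' - x0 b) = nsq ((om (lam b') • x0 b' - x0 a) - (om (lam b) • x0 b - x0 a)) ≤ 4/(20 q)^2` (`om_add`, `om_norm`, `nsq_smul`, `nsq_add_le`, `nsq_neg`).  `⟸`: this.  `⟹`: `uniq` (`x0_one` for `b'`).
`tt_label`: the set in the definition of `tt A L x m b` is `{lam (b + m) - lam b}`.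
-/

set_option autoImplicit false

namespace ACpB

open ACpFrege

variable {M q : ℕ} [NeZero M] [NeZero q]

/-- `lam` is a label near `a`: it gives the transport between the matrices with a witness which are reached from `a` by at
most 3 moves. -/
def IsLabel (A : Set (Mx M q)) (L : ℕ) (x : Mx M q → Fin M → ℂ) (a : Mx M q) (lam : Mx M q → ZMod q) : Prop :=
  ∀ b b' : Mx M q, Cov A L b → Cov A L b' → Rch 3 a b → Rch 3 a b' →
    ∀ s : ZMod q, nsq (om q s • x0 A L x b' - x0 A L x b) ≤ 1 / (q : ℝ) ^ 2 ↔ s = lam b' - lam b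

theorem label (hq : 3 ≤ q) {R L : ℕ} (hR : 2 * L + 3 ≤ R) {A : Set (Mx M q)} {x : Mx M q → Fin M → ℂ}
    (hW : Wit R A x) {a : Mx M q} (ha : Cov A L a) : ∃ lam : Mx M q → ZMod q, IsLabel A L x a lam := by
  classical
  have hall : ∀ b : Mx M q, ∃ s : ZMod q, (Cov A L b ∧ Rch 3 a b) → nsq (om q s • x0 A L x b - x0 A L x a) ≤ 1 / (20 * (q : ℝ)) ^ 2 := by
    intro b
    by_cases hb : Cov A L b ∧ Rch 3 a b
    · obtain ⟨s, hs⟩ := close hR hW ha hb.1 hb.2
      exact ⟨s, fun _ => hs⟩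
    · exact ⟨0, fun h => absurd h hb⟩
  choose lam hlam using hall
  refine ⟨lam, ?_⟩
  intro b b' hb hb' hr hr' s
  have h1 := hlam b ⟨hb, hr⟩
  have h2 := hlam b' ⟨hb', hr'⟩
  have hq0 : (0 : ℝ) < (q : ℝ) := by
    have : 0 < q := by omega
    exact_mod_cast this
  have hnum : 2 * (1 / (20 * (q : ℝ)) ^ 2) + 2 * (1 / (20 * (q : ℝ)) ^ 2) ≤ 1 / (q : ℝ) ^ 2 := by
    have e : 2 * (1 / (20 * (q : ℝ)) ^ 2) + 2 * (1 / (20 * (q : ℝ)) ^ 2) = (1 / 100) * (1 / (q : ℝ) ^ 2) := by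
      field_simp
      ring
    rw [e]
    have : (0 : ℝ) ≤ 1 / (q : ℝ) ^ 2 := by positivity
    linarith
  have key : nsq (om q (lam b' - lam b) • x0 A L x b' - x0 A L x b) ≤ 1 / (q : ℝ) ^ 2 := by
    have e : om q (lam b) • (om q (lam b' - lam b) • x0 A L x b' - x0 A L x b) =
        (om q (lam b') • x0 A L x b' - x0 A L x a) + -(om q (lam b) • x0 A L x b - x0 A L x a) := by
      rw [smul_sub, smul_smul, ← om_add, add_sub_cancel]
      abel
    have e2 : nsq (om q (lam b' - lam b) • x0 A L x b' - x0 A L x b) =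
        nsq (om q (lam b) • (om q (lam b' - lam b) • x0 A L x b' - x0 A L x b)) := by
      rw [nsq_smul (om q (lam b)), om_norm, one_pow, one_mul]
    rw [e2, e]
    have h3 := nsq_add_le (om q (lam b') • x0 A L x b' - x0 A L x a) (-(om q (lam b) • x0 A L x b - x0 A L x a))
    rw [nsq_neg] at h3
    linarith
  constructor
  · intro h
    exact uniq hq (x0_one hW hb') h key
  · rintro rfl
    exact key

theorem tt_label {A : Set (Mx M q)} {L : ℕ} {x : Mx M q → Fin M → ℂ} {a : Mx M q} {lam : Mx M q → ZMod q}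
    (hl : IsLabel A L x a lam) {b m : Mx M q} (h : Cov A L b) (h' : Cov A L (b + m)) (hb : Rch 3 a b)
    (hb' : Rch 3 a (b + m)) : tt A L x m b = lam (b + m) - lam b := by
  classical
  have h1 := hl b (b + m) h h' hb hb'
  have hex : ∃ s : ZMod q, nsq (om q s • x0 A L x (b + m) - x0 A L x b) ≤ 1 / (q : ℝ) ^ 2 := ⟨lam (b + m) - lam b, (h1 _).mpr rfl⟩
  rw [tt, dif_pos hex]
  exact (h1 _).mp hex.choose_spec

end ACpB
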