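import Pool.Agent.H56.AF.Label
import Pool.Agent.H56.AF.Alg

/-!
ROW Loc (about 110 lines).  PROOF.  `MM_up`: `Cov_mono`.
`XX_map`: gauge invariance: `tt_gauge`, `a + dd g + k • m = (a + k • m) + dd g`.  Support: if `XX F a ≠ 0` some `F (a + k • mv ν) ≠ 0`, so `Cov A j (a + k • mv ν)`, and `Cov_step`.
`XX_loc`: term by term in `k`: if `F (b + k • mv ν) = 0` both terms are 0.  Otherwise `Cov A j (b + k • mv ν)`, `Cov A (j + 1) b` (`Cov_step`), both give `Cov A L` (`Cov_mono`, `j < L`); `Rch 3 a b`, `Rch 3 a (b + k • mv ν)` (`Rch_trans`,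
`Rch_move`, `Rch_mono`, `r ≤ 2`): `tt = lam (b + k • mv ν) - lam b` (`tt_label`) and `chi (lam b) * chi (-(i k) + tt) = chi (-(i k)) * chi (lam (b + k • mv ν))` (`chi_add`).
-/

set_option autoImplicit false

namespace ACpB

open ACpFrege

variable {M q : ℕ} [NeZero M] [NeZero q] {K : Type} [Field K]

omit [NeZero M] [NeZero q] in
theorem MM_up (A : Set (Mx M q)) {j j' : ℕ} (h : j ≤ j') : MM K A j ≤ MM K A j' := by
  intro F hF
  exact ⟨hF.1, fun a ha => Cov_mono h (hF.2 a ha)⟩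

theorem XX_map (η : K) (A : Set (Mx M q)) (L : ℕ) (x : Mx M q → Fin M → ℂ) {j : ℕ} (ν : Vr M) (i : ZMod q)
    {F : Mx M q → K} (hF : F ∈ MM K A j) : XX η A L x ν i F ∈ MM K A (j + 1) := by
  refine ⟨fun a g => ?_, fun a ha => ?_⟩
  · show (q : K)⁻¹ * ∑ k : ZMod q, chi η (-(i * k) + tt A L x (k • mv q ν) (a + dd g)) * F (a + dd g + k • mv q ν) =
      (q : K)⁻¹ * ∑ k : ZMod q, chi η (-(i * k) + tt A L x (k • mv q ν) a) * F (a + k • mv q ν)
    congr 1
    refine Finset.sum_congr rfl fun k _ => ?_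
    rw [tt_gauge, add_right_comm, hF.1]
  · have ha' : (q : K)⁻¹ * ∑ k : ZMod q, chi η (-(i * k) + tt A L x (k • mv q ν) a) * F (a + k • mv q ν) ≠ 0 := ha
    have h1 : ∑ k : ZMod q, chi η (-(i * k) + tt A L x (k • mv q ν) a) * F (a + k • mv q ν) ≠ 0 := by
      intro h
      rw [h, mul_zero] at ha'
      exact ha' rfl
    obtain ⟨k, _, hk⟩ := Finset.exists_ne_zero_of_sum_ne_zero h1
    have hk' : F (a + k • mv q ν) ≠ 0 := fun h => hk (by rw [h, mul_zero])
    exact Cov_step k ν (hF.2 _ hk')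

theorem XX_loc {η : K} (hη : η ^ q = 1) {A : Set (Mx M q)} {L : ℕ} {x : Mx M q → Fin M → ℂ} {a : Mx M q}
    {lam : Mx M q → ZMod q} (hl : IsLabel A L x a lam) {j : ℕ} (hj : j < L) (ν : Vr M) (i : ZMod q) {F : Mx M q → K}
    (hF : F ∈ MM K A j) {r : ℕ} (hr : r ≤ 2) {b : Mx M q} (hb : Rch r a b) :
    chi η (lam b) * XX η A L x ν i F b = YY η (mv q ν) i (fun b' => chi η (lam b') * F b') b := by
  show chi η (lam b) * ((q : K)⁻¹ * ∑ k : ZMod q, chi η (-(i * k) + tt A L x (k • mv q ν) b) * F (b + k • mv q ν)) =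
    (q : K)⁻¹ * ∑ k : ZMod q, chi η (-(i * k)) * (chi η (lam (b + k • mv q ν)) * F (b + k • mv q ν))
  rw [mul_left_comm, Finset.mul_sum]
  congr 1
  refine Finset.sum_congr rfl fun k _ => ?_
  by_cases h0 : F (b + k • mv q ν) = 0
  · rw [h0]
    simp
  · have h3 : Cov A j (b + k • mv q ν) := hF.2 _ h0
    have h5 : Cov A (j + 1) b := Cov_step k ν h3
    have h6 : Cov A L (b + k • mv q ν) := Cov_mono hj.le h3
    have h7 : Cov A L b := Cov_mono hj h5
    have h8 : Rch 3 a b := Rch_mono (by omega) hb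
    have h9 : Rch 3 a (b + k • mv q ν) := Rch_mono (by omega) (Rch_trans hb (Rch_move b k ν))
    rw [tt_label hl h7 h6 h8 h9, ← mul_assoc, ← mul_assoc, ← chi_add hη, ← chi_add hη]
    congr 2
    abel

end ACpB
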