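import Pool.Agent.H56.AF.BDefs
import Pool.Agent.H88.AF.OmF

/-!
ROW Om (roots of unity and `nsq`), general `q`.
`om_dist`: `‖om s - om s'‖ = ‖om (s - s') - 1‖`, and `‖om k - 1‖ ^ 2 = 2 - 2 cos (2 π k / q) = 4 sin^2 (π k / q) ≥ 16 / q^2` for `k ≠ 0`.
`uniq`: `nsq ((om s • z - x) - (om s' • z - x)) ≤ 4 / q^2`, but it is `‖om s - om s'‖^2 * nsq z ≥ 16 / q^2` if `s ≠ s'`.
-/

set_option autoImplicit false

namespace ACpB

open ACpFrege

variable {q : ℕ} [NeZero q]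

theorem om_pow (s : ZMod q) : om q s ^ q = 1 := by
  rw [← om_nsmul, nsmul_eq_mul, ZMod.natCast_self, zero_mul, om_zero]

private theorem om_re (k : ZMod q) : (om q k).re = Real.cos (2 * Real.pi * (k.val : ℝ) / (q : ℝ)) := by
  have h : (2 * Real.pi * Complex.I * (k.val : ℂ) / (q : ℂ) : ℂ)
      = ((2 * Real.pi * (k.val : ℝ) / (q : ℝ) : ℝ) : ℂ) * Complex.I := by
    push_cast
    ring
  unfold om
  rw [h, Complex.exp_ofReal_mul_I_re]

private theorem om_re_le {k : ZMod q} (hk : k ≠ 0) : (om q k).re ≤ 1 - 8 / (q : ℝ) ^ 2 := by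
  have h0 : k.val ≠ 0 := fun h => hk ((ZMod.val_eq_zero k).1 h)
  have h1 : k.val < q := ZMod.val_lt k
  have hq0 : (0 : ℝ) < (q : ℝ) := by
    have := NeZero.pos q
    exact_mod_cast this
  have hpi := Real.pi_pos
  have ha : (1 : ℝ) ≤ (k.val : ℝ) := by exact_mod_cast Nat.one_le_iff_ne_zero.mpr h0
  have hb : (k.val : ℝ) + 1 ≤ (q : ℝ) := by exact_mod_cast h1
  have hs : 2 / (q : ℝ) ≤ Real.sin (Real.pi * (k.val : ℝ) / (q : ℝ)) := by
    by_cases hc : Real.pi * (k.val : ℝ) / (q : ℝ) ≤ Real.pi / 2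
    · refine le_trans ?_ (Real.mul_le_sin (by positivity) hc)
      have : 2 / Real.pi * (Real.pi * (k.val : ℝ) / (q : ℝ)) = 2 * (k.val : ℝ) / (q : ℝ) := by
        field_simp
      rw [this]
      gcongr
      linarith
    · push Not at hc
      rw [← Real.sin_pi_sub]
      have h2 : Real.pi - Real.pi * (k.val : ℝ) / (q : ℝ) = Real.pi * ((q : ℝ) - (k.val : ℝ)) / (q : ℝ) := by
        field_simp
      have h3 : 0 ≤ Real.pi - Real.pi * (k.val : ℝ) / (q : ℝ) := by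
        rw [h2]
        apply div_nonneg _ hq0.le
        apply mul_nonneg hpi.le
        linarith
      refine le_trans ?_ (Real.mul_le_sin h3 (by linarith))
      rw [h2]
      have : 2 / Real.pi * (Real.pi * ((q : ℝ) - (k.val : ℝ)) / (q : ℝ)) = 2 * ((q : ℝ) - (k.val : ℝ)) / (q : ℝ) := by
        field_simp
      rw [this]
      gcongr
      linarith
  have hs2 : 4 / (q : ℝ) ^ 2 ≤ Real.sin (Real.pi * (k.val : ℝ) / (q : ℝ)) ^ 2 := by
    have h5 : 0 ≤ 2 / (q : ℝ) := by positivity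
    have h6 := pow_le_pow_left₀ h5 hs 2
    rw [div_pow, show (2 : ℝ) ^ 2 = 4 by norm_num] at h6
    exact h6
  rw [om_re]
  have h7 : 2 * Real.pi * (k.val : ℝ) / (q : ℝ) = 2 * (Real.pi * (k.val : ℝ) / (q : ℝ)) := by ring
  rw [h7, Real.cos_two_mul, Real.cos_sq']
  have h8 : 8 / (q : ℝ) ^ 2 = 2 * (4 / (q : ℝ) ^ 2) := by ring
  linarith

theorem om_dist (hq : 3 ≤ q) {s s' : ZMod q} (h : s ≠ s') : 16 / (q : ℝ) ^ 2 ≤ ‖om q s - om q s'‖ ^ 2 := by
  have hk : s - s' ≠ 0 := sub_ne_zero.2 h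
  have h1 : om q s = om q (s - s') * om q s' := by rw [← om_add, sub_add_cancel]
  have h2 : om q s - om q s' = (om q (s - s') - 1) * om q s' := by
    rw [sub_mul, one_mul, ← h1]
  rw [h2, norm_mul, om_norm, mul_one]
  have h3 := om_re_le hk
  have h4 : ‖om q (s - s')‖ ^ 2 = 1 := by rw [om_norm, one_pow]
  rw [← Complex.normSq_eq_norm_sq] at h4 ⊢
  rw [Complex.normSq_apply] at h4 ⊢
  simp only [Complex.sub_re, Complex.sub_im, Complex.one_re, Complex.one_im]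
  have h5 : 16 / (q : ℝ) ^ 2 = 2 * (8 / (q : ℝ) ^ 2) := by ring
  nlinarith

section
variable {ι : Type} [Fintype ι]

theorem nsq_nonneg (x : ι → ℂ) : 0 ≤ nsq x := by
  unfold nsq
  exact Finset.sum_nonneg fun u _ => sq_nonneg _

theorem nsq_smul (c : ℂ) (x : ι → ℂ) : nsq (c • x) = ‖c‖ ^ 2 * nsq x := by
  unfold nsq
  rw [Finset.mul_sum]
  refine Finset.sum_congr rfl fun u _ => ?_
  rw [Pi.smul_apply, smul_eq_mul, norm_mul, mul_pow]

theorem nsq_neg (x : ι → ℂ) : nsq (-x) = nsq x := by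
  unfold nsq
  refine Finset.sum_congr rfl fun u _ => ?_
  rw [Pi.neg_apply, norm_neg]

theorem nsq_add_le (x y : ι → ℂ) : nsq (x + y) ≤ 2 * nsq x + 2 * nsq y := by
  unfold nsq
  rw [Finset.mul_sum, Finset.mul_sum, ← Finset.sum_add_distrib]
  refine Finset.sum_le_sum fun u _ => ?_
  rw [Pi.add_apply]
  have h1 := norm_add_le (x u) (y u)
  have h2 := norm_nonneg (x u + y u)
  nlinarith [sq_nonneg (‖x u‖ - ‖y u‖), norm_nonneg (x u), norm_nonneg (y u)]

theorem uniq (hq : 3 ≤ q) {z x : ι → ℂ} (hz : nsq z = 1) {s s' : ZMod q} (h : nsq (om q s • z - x) ≤ 1 / (q : ℝ) ^ 2)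
    (h' : nsq (om q s' • z - x) ≤ 1 / (q : ℝ) ^ 2) : s = s' := by
  by_contra hne
  have hq0 : (0 : ℝ) < (q : ℝ) := by
    have := NeZero.pos q
    exact_mod_cast this
  have h1 := om_dist hq hne
  have h2 : (om q s • z - x) + -(om q s' • z - x) = (om q s - om q s') • z := by
    rw [sub_smul]
    abel
  have h3 := nsq_add_le (om q s • z - x) (-(om q s' • z - x))
  rw [h2, nsq_smul, hz, nsq_neg] at h3
  have h4 : 0 < 1 / (q : ℝ) ^ 2 := by positivity
  have h5 : 16 / (q : ℝ) ^ 2 = 16 * (1 / (q : ℝ) ^ 2) := by ring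
  linarith

end

end ACpB
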