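import Pool.Agent.H56.AF.Loc

/-!
Relations of the operators `XX` (project MP_28250c_AF, Part B). Both sides of an identity between products of `XX`'s applied to `F ∈ MM j`
lie in `MM L`, so they vanish at `a` unless `Cov A L a`. At such an `a` take a label `lam`; multiplied by `chi (lam b)` the operators become
the untwisted operators `YY` on the matrices reached from `a` by at most 3 moves (`XX_loc`), and the identities are those of `Alg`.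
-/

set_option autoImplicit false

namespace ACpB

open ACpFrege

variable {M q : ℕ} [NeZero M] [NeZero q] {K : Type} [Field K]

omit [NeZero M] in
private theorem Rel_congr (η : K) (m : Mx M q) (i : ZMod q) {G G' : Mx M q → K} {b : Mx M q}
    (h : ∀ k : ZMod q, G (b + k • m) = G' (b + k • m)) : YY η m i G b = YY η m i G' b := by
  unfold YY
  refine congrArg _ (Finset.sum_congr rfl fun k _ => ?_)
  rw [h k]

private theorem Rel_two {η : K} (hη : η ^ q = 1) {A : Set (Mx M q)} {L : ℕ} {x : Mx M q → Fin M → ℂ} {a : Mx M q}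
    {lam : Mx M q → ZMod q} (hl : IsLabel A L x a lam) {j : ℕ} (hj : j + 2 ≤ L) (ν₁ ν₂ : Vr M) (i₁ i₂ : ZMod q)
    {F : Mx M q → K} (hF : F ∈ MM K A j) {r : ℕ} (hr : r ≤ 1) {b : Mx M q} (hb : Rch r a b) :
    chi η (lam b) * XX η A L x ν₁ i₁ (XX η A L x ν₂ i₂ F) b =
      YY η (mv q ν₁) i₁ (YY η (mv q ν₂) i₂ (fun b' => chi η (lam b') * F b')) b := by
  rw [XX_loc hη hl (by omega : j + 1 < L) ν₁ i₁ (XX_map η A L x ν₂ i₂ hF) (by omega : r ≤ 2) hb]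
  refine Rel_congr η (mv q ν₁) i₁ fun k => ?_
  exact XX_loc hη hl (by omega : j < L) ν₂ i₂ hF (by omega : r + 1 ≤ 2) (Rch_trans hb (Rch_move b k ν₁))

private theorem Rel_three {η : K} (hη : η ^ q = 1) {A : Set (Mx M q)} {L : ℕ} {x : Mx M q → Fin M → ℂ} {a : Mx M q}
    {lam : Mx M q → ZMod q} (hl : IsLabel A L x a lam) {j : ℕ} (hj : j + 3 ≤ L) (ν₁ ν₂ ν₃ : Vr M) (i₁ i₂ i₃ : ZMod q)
    {F : Mx M q → K} (hF : F ∈ MM K A j) {r : ℕ} (hr : r ≤ 0) {b : Mx M q} (hb : Rch r a b) :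
    chi η (lam b) * XX η A L x ν₁ i₁ (XX η A L x ν₂ i₂ (XX η A L x ν₃ i₃ F)) b =
      YY η (mv q ν₁) i₁ (YY η (mv q ν₂) i₂ (YY η (mv q ν₃) i₃ (fun b' => chi η (lam b') * F b'))) b := by
  have h' : XX η A L x ν₃ i₃ F ∈ MM K A (j + 1) := XX_map η A L x ν₃ i₃ hF
  rw [XX_loc hη hl (by omega : j + 2 < L) ν₁ i₁ (XX_map η A L x ν₂ i₂ h') (by omega : r ≤ 2) hb]
  refine Rel_congr η (mv q ν₁) i₁ fun k => ?_
  exact Rel_two hη hl (by omega : j + 2 ≤ L) ν₂ ν₃ i₂ i₃ hF (by omega : r + 1 ≤ 1) (Rch_trans hb (Rch_move b k ν₁))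

omit [NeZero M] [NeZero q] in
private theorem Rel_ext {A : Set (Mx M q)} {L : ℕ} {G₁ G₂ : Mx M q → K} (h₁ : G₁ ∈ MM K A L) (h₂ : G₂ ∈ MM K A L)
    (h : ∀ a : Mx M q, Cov A L a → G₁ a = G₂ a) : G₁ = G₂ := by
  funext a
  by_cases ha : Cov A L a
  · exact h a ha
  · have e₁ : G₁ a = 0 := by
      by_contra hne
      exact ha (h₁.2 a hne)
    have e₂ : G₂ a = 0 := by
      by_contra hne
      exact ha (h₂.2 a hne)
    rw [e₁, e₂]

theorem XX_idem (hq : 3 ≤ q) {η : K} (hη : IsPrimitiveRoot η q) (hqK : (q : K) ≠ 0) {R L : ℕ} (hR : 2 * L + 3 ≤ R)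
    {A : Set (Mx M q)} {x : Mx M q → Fin M → ℂ} (hW : Wit R A x) {j : ℕ} (hj : j + 2 ≤ L) (ν : Vr M) (i : ZMod q)
    {F : Mx M q → K} (hF : F ∈ MM K A j) : XX η A L x ν i (XX η A L x ν i F) = XX η A L x ν i F := by
  have h1 : XX η A L x ν i F ∈ MM K A (j + 1) := XX_map η A L x ν i hF
  have h2 : XX η A L x ν i (XX η A L x ν i F) ∈ MM K A (j + 1 + 1) := XX_map η A L x ν i h1
  refine Rel_ext (MM_up A (by omega : j + 1 + 1 ≤ L) h2) (MM_up A (by omega : j + 1 ≤ L) h1) fun a ha => ?_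
  obtain ⟨lam, hl⟩ := label hq hR hW ha
  refine mul_left_cancel₀ (chi_ne hη.pow_eq_one (lam a)) ?_
  rw [Rel_two hη.pow_eq_one hl hj ν ν i i hF (Nat.zero_le 1) (Rch_refl 0 a), YY_idem hη hqK,
    XX_loc hη.pow_eq_one hl (by omega : j < L) ν i hF (Nat.zero_le 2) (Rch_refl 0 a)]

theorem XX_orth (hq : 3 ≤ q) {η : K} (hη : IsPrimitiveRoot η q) (hqK : (q : K) ≠ 0) {R L : ℕ} (hR : 2 * L + 3 ≤ R)
    {A : Set (Mx M q)} {x : Mx M q → Fin M → ℂ} (hW : Wit R A x) {j : ℕ} (hj : j + 2 ≤ L) (ν : Vr M) {i i' : ZMod q}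
    (hi : i ≠ i') {F : Mx M q → K} (hF : F ∈ MM K A j) : XX η A L x ν i (XX η A L x ν i' F) = 0 := by
  have h1 : XX η A L x ν i' F ∈ MM K A (j + 1) := XX_map η A L x ν i' hF
  have h2 : XX η A L x ν i (XX η A L x ν i' F) ∈ MM K A (j + 1 + 1) := XX_map η A L x ν i h1
  refine Rel_ext (MM_up A (by omega : j + 1 + 1 ≤ L) h2) (Submodule.zero_mem _) fun a ha => ?_
  obtain ⟨lam, hl⟩ := label hq hR hW ha
  refine mul_left_cancel₀ (chi_ne hη.pow_eq_one (lam a)) ?_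
  rw [Rel_two hη.pow_eq_one hl hj ν ν i i' hF (Nat.zero_le 1) (Rch_refl 0 a), YY_orth hη hqK _ hi]
  simp

theorem XX_comm (hq : 3 ≤ q) {η : K} (hη : IsPrimitiveRoot η q) {R L : ℕ} (hR : 2 * L + 3 ≤ R)
    {A : Set (Mx M q)} {x : Mx M q → Fin M → ℂ} (hW : Wit R A x) {j : ℕ} (hj : j + 2 ≤ L) (ν ν' : Vr M) (i i' : ZMod q)
    {F : Mx M q → K} (hF : F ∈ MM K A j) :
    XX η A L x ν i (XX η A L x ν' i' F) = XX η A L x ν' i' (XX η A L x ν i F) := by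
  have h1 : XX η A L x ν i (XX η A L x ν' i' F) ∈ MM K A (j + 1 + 1) := XX_map η A L x ν i (XX_map η A L x ν' i' hF)
  have h2 : XX η A L x ν' i' (XX η A L x ν i F) ∈ MM K A (j + 1 + 1) := XX_map η A L x ν' i' (XX_map η A L x ν i hF)
  refine Rel_ext (MM_up A (by omega : j + 1 + 1 ≤ L) h1) (MM_up A (by omega : j + 1 + 1 ≤ L) h2) fun a ha => ?_
  obtain ⟨lam, hl⟩ := label hq hR hW ha
  refine mul_left_cancel₀ (chi_ne hη.pow_eq_one (lam a)) ?_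
  rw [Rel_two hη.pow_eq_one hl hj ν ν' i i' hF (Nat.zero_le 1) (Rch_refl 0 a),
    Rel_two hη.pow_eq_one hl hj ν' ν i' i hF (Nat.zero_le 1) (Rch_refl 0 a), YY_comm]

theorem XX_sum (hq : 3 ≤ q) {η : K} (hη : IsPrimitiveRoot η q) (hqK : (q : K) ≠ 0) {R L : ℕ} (hR : 2 * L + 3 ≤ R)
    {A : Set (Mx M q)} {x : Mx M q → Fin M → ℂ} (hW : Wit R A x) {j : ℕ} (hj : j + 1 ≤ L) (ν : Vr M)
    {F : Mx M q → K} (hF : F ∈ MM K A j) : ∑ i : ZMod q, XX η A L x ν i F = F := by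
  have h1 : ∑ i : ZMod q, XX η A L x ν i F ∈ MM K A (j + 1) := Submodule.sum_mem _ fun i _ => XX_map η A L x ν i hF
  refine Rel_ext (MM_up A hj h1) (MM_up A (by omega : j ≤ L) hF) fun a ha => ?_
  obtain ⟨lam, hl⟩ := label hq hR hW ha
  refine mul_left_cancel₀ (chi_ne hη.pow_eq_one (lam a)) ?_
  have h := congrFun (YY_sum hη hqK (mv q ν) (fun b' => chi η (lam b') * F b')) a
  rw [Finset.sum_apply] at h ⊢
  rw [Finset.mul_sum, ← h]
  exact Finset.sum_congr rfl fun i _ => XX_loc hη.pow_eq_one hl (by omega : j < L) ν i hF (Nat.zero_le 2) (Rch_refl 0 a)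

theorem XX_add (hq : 3 ≤ q) {η : K} (hη : IsPrimitiveRoot η q) (hqK : (q : K) ≠ 0) {R L : ℕ} (hR : 2 * L + 3 ≤ R)
    {A : Set (Mx M q)} {x : Mx M q → Fin M → ℂ} (hW : Wit R A x) {j : ℕ} (hj : j + 3 ≤ L) {ν₁ ν₂ ν₃ : Vr M}
    (hm : mv q ν₁ + mv q ν₂ = mv q ν₃) {i i' l : ZMod q} (hi : i + i' ≠ l) {F : Mx M q → K} (hF : F ∈ MM K A j) :
    XX η A L x ν₁ i (XX η A L x ν₂ i' (XX η A L x ν₃ l F)) = 0 := by
  have h1 : XX η A L x ν₁ i (XX η A L x ν₂ i' (XX η A L x ν₃ l F)) ∈ MM K A (j + 1 + 1 + 1) :=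
    XX_map η A L x ν₁ i (XX_map η A L x ν₂ i' (XX_map η A L x ν₃ l hF))
  refine Rel_ext (MM_up A (by omega : j + 1 + 1 + 1 ≤ L) h1) (Submodule.zero_mem _) fun a ha => ?_
  obtain ⟨lam, hl⟩ := label hq hR hW ha
  refine mul_left_cancel₀ (chi_ne hη.pow_eq_one (lam a)) ?_
  rw [Rel_three hη.pow_eq_one hl hj ν₁ ν₂ ν₃ i i' l hF (Nat.le_refl 0) (Rch_refl 0 a), ← hm, YY_add hη hqK _ _ hi]
  simp

theorem XX_zero (hq : 3 ≤ q) {η : K} (hη : IsPrimitiveRoot η q) (hqK : (q : K) ≠ 0) {R L : ℕ} (hR : 2 * L + 3 ≤ R)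
    {A : Set (Mx M q)} {x : Mx M q → Fin M → ℂ} (hW : Wit R A x) {j : ℕ} (hj : j + 1 ≤ L) {ν : Vr M} (hm : mv q ν = 0)
    {F : Mx M q → K} (hF : F ∈ MM K A j) : XX η A L x ν 0 F = F := by
  have h1 : XX η A L x ν 0 F ∈ MM K A (j + 1) := XX_map η A L x ν 0 hF
  refine Rel_ext (MM_up A hj h1) (MM_up A (by omega : j ≤ L) hF) fun a ha => ?_
  obtain ⟨lam, hl⟩ := label hq hR hW ha
  refine mul_left_cancel₀ (chi_ne hη.pow_eq_one (lam a)) ?_
  rw [XX_loc hη.pow_eq_one hl (by omega : j < L) ν 0 hF (Nat.zero_le 2) (Rch_refl 0 a), hm, YY_zero hη hqK]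

theorem XX_star (hq : 3 ≤ q) {η : K} (hη : IsPrimitiveRoot η q) (hqK : (q : K) ≠ 0) {R L : ℕ}
    {A : Set (Mx M q)} {x : Mx M q → Fin M → ℂ} (hW : Wit R A x) {j : ℕ} (hj : j ≤ L) (v : Fin M)
    {F : Mx M q → K} (hF : F ∈ MM K A j) : XX η A L x (.inr (v, Fin.last M)) (cM q v) F = F := by
  funext a
  have hk : ∀ k : ZMod q, F (a + k • mv q (.inr (v, Fin.last M))) = F a := by
    intro k
    have h : k • mv q (.inr (v, Fin.last M)) = dd (k • (Pi.single v (1 : ZMod q) : Fin M → ZMod q)) := by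
      rw [mv_yM]
      funext x y
      simp [dd, mul_sub]
    rw [h]
    exact hF.1 a _
  have hsum : ∀ k ∈ (Finset.univ : Finset (ZMod q)),
      chi η (-(cM q v * k) + tt A L x (k • mv q (.inr (v, Fin.last M))) a) *
      F (a + k • mv q (.inr (v, Fin.last M))) = F a := by
    intro k _
    rw [hk k]
    by_cases h0 : F a = 0
    · rw [h0, mul_zero]
    · have hn : Cov A L a := Cov_mono hj (hF.2 a h0)
      rw [tt_star hq hW hn v k, show -(cM q v * k) + k * cM q v = 0 by ring, chi_zero, one_mul]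
  show (q : K)⁻¹ * ∑ k : ZMod q, chi η (-(cM q v * k) + tt A L x (k • mv q (.inr (v, Fin.last M))) a) *
      F (a + k • mv q (.inr (v, Fin.last M))) = F a
  rw [Finset.sum_congr rfl hsum, Finset.sum_const, Finset.card_univ, ZMod.card, nsmul_eq_mul, ← mul_assoc,
    inv_mul_cancel₀ hqK, one_mul]

end ACpB
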