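import Pool.Agent.H56.AF.Cnf

/-!
helper56 (project MP_28250c_AF, Part B): the clauses of `ASM M q` have at most `max q 3` literals.
-/

set_option autoImplicit false

namespace ACpB

open ACpFrege

variable {M q : ℕ}

theorem length_vals' : (vals q).length = q := by simp [vals]

theorem oneC_len (ν : Vr M) : ∀ C ∈ oneC q ν, C.length ≤ max q 3 := by
  intro C hC
  unfold oneC at hC
  rcases List.mem_cons.mp hC with rfl | hC
  · rw [List.length_map, length_vals']
    exact le_max_left _ _
  · obtain ⟨j, _, hC⟩ := List.mem_flatMap.mp hC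
    obtain ⟨j', _, rfl⟩ := List.mem_map.mp hC
    exact le_trans (by simp) (le_max_right _ _)

theorem cstC_len (ν : Vr M) (c : ZMod q) : ∀ C ∈ cstC q ν c, C.length ≤ max q 3 := by
  intro C hC
  unfold cstC at hC
  rw [List.mem_singleton] at hC
  subst hC
  exact le_trans (by simp) (le_max_right _ _)

theorem addC_len (ν₁ ν₂ ν₃ : Vr M) : ∀ C ∈ addC q ν₁ ν₂ ν₃, C.length ≤ max q 3 := by
  intro C hC
  unfold addC at hC
  obtain ⟨i, _, hC⟩ := List.mem_flatMap.mp hC
  obtain ⟨j, _, hC⟩ := List.mem_flatMap.mp hC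
  obtain ⟨k, _, rfl⟩ := List.mem_map.mp hC
  exact le_trans (by simp) (le_max_right _ _)

/-- The width of the CNF. -/
theorem ASM_width : ∀ C ∈ ASM M q, C.length ≤ max q 3 := by
  intro C hC
  unfold ASM at hC
  rcases List.mem_append.mp hC with hC | hC
  · rcases List.mem_append.mp hC with hC | hC
    · rcases List.mem_append.mp hC with hC | hC
      · obtain ⟨ν, _, hC⟩ := List.mem_flatMap.mp hC
        exact oneC_len _ C hC
      · obtain ⟨v, _, hC⟩ := List.mem_flatMap.mp hC
        rcases List.mem_append.mp hC with hC | hC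
        · rcases List.mem_append.mp hC with hC | hC
          · exact cstC_len _ _ C hC
          · exact cstC_len _ _ C hC
        · exact cstC_len _ _ C hC
    · obtain ⟨u, _, hC⟩ := List.mem_flatMap.mp hC
      obtain ⟨v, _, hC⟩ := List.mem_flatMap.mp hC
      exact addC_len _ _ _ C hC
  · obtain ⟨u, _, hC⟩ := List.mem_flatMap.mp hC
    obtain ⟨v, _, hC⟩ := List.mem_flatMap.mp hC
    exact addC_len _ _ _ C hC

end ACpB
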